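import Pool.Agent.MP_3e91a1_nt.TR.St2

/-! Dependent quotients give a bad prime. -/

set_option autoImplicit false

open NumberField Module Polynomial

namespace Pool.Agent.MP_3e91a1_nt.TR

theorem monic_BAD {R : Type} [CommRing R] [Nontrivial R] (T : R) :
    (X ^ 3 + C (T - 1) * X ^ 2 + C (-T) * X + C (-1) : R[X]).Monic ∧
      (X ^ 3 + C (T - 1) * X ^ 2 + C (-T) * X + C (-1) : R[X]).natDegree = 3 :=
  ⟨by monicity!, by compute_degree!⟩

theorem irr_BAD (T : ℕ) :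
    Irreducible (X ^ 3 + C ((T : ℚ) - 1) * X ^ 2 + C (-(T : ℚ)) * X + C (-1) : ℚ[X]) := by
  have hd := (monic_BAD (T : ℚ)).2
  rw [irreducible_iff_roots_eq_zero_of_degree_le_three (by omega) (by omega),
    Multiset.eq_zero_iff_forall_notMem]
  intro r hr
  have h1 : r ^ 3 + (T - 1) * r ^ 2 + -T * r + -1 = 0 := by
    have := (mem_roots (monic_BAD (T : ℚ)).1.ne_zero).1 hr
    simpa using this
  obtain ⟨m, hm⟩ := isInteger_of_is_root_of_monic (K := ℚ) (monic_BAD (T : ℤ)).1 (r := r)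
    (by simpa using h1)
  have h2 : m ^ 3 + (T - 1) * m ^ 2 + -T * m + -1 = 0 := by
    rw [← hm] at h1
    simp only [eq_intCast] at h1
    exact_mod_cast h1
  have h3 : m * ((m - 1) * (m + T)) = 1 := by linear_combination h2
  have h4 : (m - 1) * (m * (m + T)) = 1 := by linear_combination h2
  have h5 := Int.eq_one_or_neg_one_of_mul_eq_one h3
  have h6 := Int.eq_one_or_neg_one_of_mul_eq_one h4
  omega

theorem conj_BAD {T : ℕ} {w a : AlgebraicClosure ℚ} (hw : w * (w - 1) * (w + T) = 1)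
    (ha : a * (a - 1) * (a + T) = 1) :
    ∃ g : AlgebraicClosure ℚ ≃ₐ[ℚ] AlgebraicClosure ℚ, g w = a := by
  have : IsAlgClosure ℚ (AlgebraicClosure ℚ) := AlgebraicClosure.instIsAlgClosure ℚ
  have : Normal ℚ (AlgebraicClosure ℚ) := IsAlgClosure.normal ℚ _
  have k : ∀ x : AlgebraicClosure ℚ, x * (x - 1) * (x + T) = 1 →
      aeval x (X ^ 3 + C ((T : ℚ) - 1) * X ^ 2 + C (-(T : ℚ)) * X + C (-1) : ℚ[X]) = 0 := by
    intro x hx
    simp only [map_add, map_mul, map_pow, aeval_X, map_sub, map_neg, map_natCast, map_one]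
    linear_combination hx
  have hm : minpoly ℚ w = _ :=
    (minpoly.eq_of_irreducible_of_monic (irr_BAD T) (k w hw) (monic_BAD _).1).symm
  exact minpoly.exists_algEquiv_of_root' (Algebra.IsAlgebraic.isAlgebraic w)
    (by rw [hm]; exact k a ha)

theorem dsc_BAD (T : ℕ) : dsc (T : ℤ) ≠ 0 := by
  rw [dsc]
  generalize (T : ℤ) ^ 2 + 3 * T - 1 = m
  intro h
  have h1 : m < 6 := by nlinarith
  have h2 : -6 < m := by nlinarith
  interval_cases m <;> simp at h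

theorem dep_BAD {R : Type} [CommRing R] [IsDomain R] {q u v l l' : R} {E i j : ℕ} (hq : q ≠ 0)
    (h1 : u ^ E = 1 + q * l) (h2 : v ^ E = 1 + q * l') (h : q ^ 2 ∣ (u ^ i * v ^ j) ^ E - 1) :
    q ∣ i * l + j * l' := by
  have k : ∀ (x : R) (n : ℕ), ∃ r, (1 + q * x) ^ n = 1 + n * (q * x) + q ^ 2 * r := by
    intro x n
    obtain ⟨r, hr⟩ := sq_dvd_add_pow_sub_sub (q * x) 1 n
    exact ⟨x ^ 2 * r, by rw [one_pow, one_pow] at hr; linear_combination hr⟩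
  obtain ⟨r, hr⟩ := k l i
  obtain ⟨s, hs⟩ := k l' j
  rw [mul_pow, ← pow_mul, ← pow_mul, mul_comm i, mul_comm j, pow_mul, pow_mul, h1, h2, hr, hs] at h
  obtain ⟨c, hc⟩ := h
  refine ⟨c - (r + s + (i * l + q * r) * (j * l' + q * s)), mul_left_cancel₀ hq ?_⟩
  linear_combination hc

theorem quo_BAD (hFRO : FRO_st) {p E T : ℕ} {E' : ℤ} {M : Type} [Field M] [NumberField M]
    [IsGalois ℚ M] {a l l' : 𝓞 M} (hp : p.Prime) (hr : (Ideal.span {(p : 𝓞 M)}).IsRadical)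
    (hE : (p : ℤ) ∣ E * E' - 1) (ha : a * (a - 1) * (a + T) = 1) (h1 : a ^ E = 1 + p * l)
    (h2 : (a - 1) ^ E = 1 + p * l') :
    Quo p (T : 𝓞 M) a (-(E' * l ^ p)) (-(E' * l' ^ p)) := by
  have h3 : (1 + p * l) * (1 + p * l') * (a + T) ^ E = 1 := by
    rw [← h1, ← h2, ← mul_pow, ← mul_pow, ha, one_pow]
  obtain ⟨m, hm⟩ : ∃ m : 𝓞 M, m = -((a + T) ^ E * (l + l' + p * l * l')) := ⟨_, rfl⟩
  have h4 : (a + T) ^ E = 1 + p * m := by
    rw [hm]
    linear_combination h3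
  have h5 : m + (l + l') = p * -(m * (l + l') + (a + T) ^ E * (l * l')) := by
    linear_combination hm - (l + l') * h4
  have k1 := hFRO p E E' 1 M a l (a - 1) l' hp hr hE h1 h2 (by simp)
  have k2 := hFRO p E E' T M (a + T) m a l hp hr hE h4 h1 (by simp)
  obtain ⟨r, hr⟩ := exists_add_pow_prime_eq hp l l'
  obtain ⟨s, hs⟩ := exists_add_pow_prime_eq hp m (l + l')
  obtain ⟨t, ht⟩ : (p : 𝓞 M) ∣ (m + (l + l')) ^ p := dvd_pow ⟨_, h5⟩ hp.ne_zero
  refine ⟨?_, ?_⟩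
  · obtain ⟨c, hc⟩ := k1
    refine ⟨c, ?_⟩
    push_cast at hc
    linear_combination hc
  · obtain ⟨c, hc⟩ := k2
    refine ⟨c - (a + T) ^ p * E' * (t - m * (l + l') * s - l * l' * r), ?_⟩
    push_cast at hc
    linear_combination hc - (a + T) ^ p * E' * p * (ht - hs - hr)

theorem map_BAD {R S : Type} [CommRing R] [CommRing S] (f : R →+* S) {p T : ℕ} {a x y : R}
    (h : Quo p (T : R) a x y) : Quo p (T : S) (f a) (f x) (f y) := by
  refine ⟨?_, ?_⟩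
  · simpa using map_dvd f h.1
  · simpa using map_dvd f h.2

theorem BAD_pf (hURM : URM_st) (hFRO : FRO_st) : BAD_st := by
  intro T K _ u a b e hu ⟨t1, t2, t3⟩
  have : IsAlgClosure ℚ (AlgebraicClosure ℚ) := AlgebraicClosure.instIsAlgClosure ℚ
  have : Normal ℚ (AlgebraicClosure ℚ) := IsAlgClosure.normal ℚ _
  let M := IntermediateField.normalClosure ℚ K (AlgebraicClosure ℚ)
  have : NumberField M := {}
  have : Normal ℚ M := normalClosure.normal ℚ K (AlgebraicClosure ℚ)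
  have : IsGalois ℚ M := {}
  let χ : 𝓞 M →+* Zb := RingOfIntegers.mapRingHom (algebraMap M (AlgebraicClosure ℚ))
  have key : ∀ c : Zb, c * (c - 1) * (c + T) = 1 → ∃ ψ : 𝓞 K →+* 𝓞 M, χ (ψ u) = c := by
    intro c hc
    have h1 := congrArg (algebraMap (𝓞 K) (AlgebraicClosure ℚ)) hu
    have h2 := congrArg (algebraMap Zb (AlgebraicClosure ℚ)) hc
    simp only [map_mul, map_sub, map_add, map_one, map_natCast] at h1 h2
    obtain ⟨g, hg⟩ := conj_BAD h1 h2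
    let f : K →ₐ[ℚ] AlgebraicClosure ℚ := (g : _ →ₐ[ℚ] _).comp K.val
    let f' : K →ₐ[ℚ] M := f.codRestrict M.toSubalgebra
      fun x => f.fieldRange_le_normalClosure ⟨x, rfl⟩
    exact ⟨RingOfIntegers.mapRingHom (f' : K →+* M), RingOfIntegers.coe_injective hg⟩
  obtain ⟨ψ, hψ⟩ := key a (by linear_combination a ^ 2 * t1 - a * t2 + t3)
  obtain ⟨ψ', hψ'⟩ := key b (by linear_combination b ^ 2 * t1 - b * t2 + t3)
  refine ⟨(discr M).natAbs + (dsc (T : ℤ)).natAbs, fun p E hp hB hE ⟨l, hl⟩ ⟨l', hl'⟩ hI => ?_⟩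
  have nd : ∀ n : ℤ, n ≠ 0 → n.natAbs < p → ¬ (p : ℤ) ∣ n := fun n h0 h c =>
    absurd (Nat.le_of_dvd (Int.natAbs_pos.2 h0) (Int.natCast_dvd.1 c)) h.not_ge
  obtain ⟨hr, -⟩ := hURM p M hp (nd _ (discr_ne_zero M) (by omega))
  obtain ⟨D, E', hD⟩ := ((Nat.Prime.coprime_iff_not_dvd hp).2 hE).isCoprime
  have hE' : (p : ℤ) ∣ E * E' - 1 := ⟨-D, by linear_combination hD⟩
  replace hl : u ^ E = 1 + p * l := by linear_combination hl
  replace hl' : (u - 1) ^ E = 1 + p * l' := by linear_combination hl'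
  have quo : ∀ φ : 𝓞 K →+* 𝓞 M,
      Quo p (T : Zb) (χ (φ u)) (χ (-(E' * φ l ^ p))) (χ (-(E' * φ l' ^ p))) := fun φ =>
    map_BAD χ (quo_BAD hFRO hp hr hE' (by simpa using congrArg φ hu)
      (by simpa using congrArg φ hl) (by simpa using congrArg φ hl'))
  refine ⟨nd _ (dsc_BAD T) (by omega), _, _, _, _, hψ ▸ quo ψ, hψ' ▸ quo ψ', ?_⟩
  rw [Indp] at hI
  push Not at hI
  obtain ⟨i, j, h1, h2⟩ := hI
  have h3 := dep_BAD (by exact_mod_cast hp.ne_zero) hl hl' h1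
  have h4 : (p : 𝓞 M) ∣ i * ψ l + j * ψ l' := by simpa using map_dvd ψ h3
  have h5 : (p : 𝓞 M) ∣ i * ψ' l + j * ψ' l' := by simpa using map_dvd ψ' h3
  have h6 : (p : 𝓞 M) ∣ ψ l * ψ' l' - ψ' l * ψ l' := by
    by_cases hi : p ∣ i
    · refine (((Nat.Prime.coprime_iff_not_dvd hp).2 (h2 hi)).cast
        (R := 𝓞 M)).dvd_of_dvd_mul_left ?_
      have := (h5.mul_left (ψ l)).sub (h4.mul_left (ψ' l))
      rwa [show ψ l * (i * ψ' l + j * ψ' l') - ψ' l * (i * ψ l + j * ψ l') =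
        j * (ψ l * ψ' l' - ψ' l * ψ l') by ring] at this
    · refine (((Nat.Prime.coprime_iff_not_dvd hp).2 hi).cast
        (R := 𝓞 M)).dvd_of_dvd_mul_left ?_
      have := (h4.mul_left (ψ' l')).sub (h5.mul_left (ψ l'))
      rwa [show ψ' l' * (i * ψ l + j * ψ l') - ψ l' * (i * ψ' l + j * ψ' l') =
        i * (ψ l * ψ' l' - ψ' l * ψ l') by ring] at this
  have h7 := (h6.trans (sub_dvd_pow_sub_pow _ _ p)).mul_left ((E' : 𝓞 M) ^ 2)
  have h8 := map_dvd χ h7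
  rw [map_natCast] at h8
  rw [← map_mul, ← map_mul, ← map_sub]
  rwa [show (E' : 𝓞 M) ^ 2 * ((ψ l * ψ' l') ^ p - (ψ' l * ψ l') ^ p) =
    -(E' * ψ l ^ p) * -(E' * ψ' l' ^ p) - -(E' * ψ' l ^ p) * -(E' * ψ l' ^ p) by ring] at h8

end Pool.Agent.MP_3e91a1_nt.TR
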