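import Pool.Agent.MP_3e91a1_nt.TR.St1
import Pool.Agent.MP_384f6f_nt.AL.Core

/-! Few points have many bad primes. -/

set_option autoImplicit false

open Finset Filter

noncomputable section

namespace Pool.Agent.MP_3e91a1_nt.TR

open Pool.Agent.MP_384f6f_nt.AL

theorem pts_COR {e u C w : ℝ} {s K D n R : ℕ} (e0 : 0 ≤ e) (h1 : e ≤ 1) (kR : K ≤ R) (r0 : 1 ≤ R)
    (u0 : 0 < u) (hs : C * R ≤ e * s) (hC : 1458000 * w + 2 ≤ C)
    (hD : (D : ℝ) + 20 * R + 12 ≤ w * u) (hn : e * u / 2000 + R ≤ n) :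
    729 * (R * (D + 20 * R) + 12) < (s - K) * (n - R) := by
  have a1 : (s : ℝ) - K ≤ ((s - K : ℕ) : ℝ) := by
    rw [sub_le_iff_le_add]
    exact_mod_cast le_tsub_add
  have a2 : (n : ℝ) - R ≤ ((n - R : ℕ) : ℝ) := by
    rw [sub_le_iff_le_add]
    exact_mod_cast le_tsub_add
  have k1 : (K : ℝ) ≤ R := by exact_mod_cast kR
  have r1 : (1 : ℝ) ≤ R := by exact_mod_cast r0
  have a4 : (1458000 * w + 1) * (R : ℝ) ≤ e * ((s - K : ℕ) : ℝ) := by
    have a6 := mul_le_mul_of_nonneg_left a1 e0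
    have a7 := mul_le_mul_of_nonneg_right h1 (Nat.cast_nonneg (α := ℝ) K)
    have a8 := mul_le_mul_of_nonneg_right hC (Nat.cast_nonneg (α := ℝ) R)
    linarith
  have a5 := mul_le_mul_of_nonneg_left hD (Nat.cast_nonneg (α := ℝ) R)
  have a6 := mul_le_mul_of_nonneg_left (by linarith : e * u / 2000 ≤ ((n - R : ℕ) : ℝ))
    (Nat.cast_nonneg (α := ℝ) (s - K))
  have a7 := mul_le_mul_of_nonneg_right a4 u0.le
  have a8 : 0 < (R : ℝ) * u := by positivity
  have a9 : 729 * ((R : ℝ) * (D + 20 * R) + 12) < ((s - K : ℕ) : ℝ) * ((n - R : ℕ) : ℝ) := by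
    linarith
  exact_mod_cast a9

open Classical in
theorem COR_pf (hDET : DET_st) : COR_st := by
  obtain ⟨E, hDET⟩ := hDET
  obtain ⟨g, g1, g2⟩ : ∃ g : ℝ, 1 ≤ g ∧ ∀ k : ℝ, 0 ≤ k → 2916 * (9 * k + 1) ^ 7 ≤ g * (k + 1) ^ 7 :=
    ⟨2916 * 9 ^ 7, by norm_num, fun k hk => by
      rw [mul_assoc, ← mul_pow]
      gcongr
      linarith⟩
  have E0 : (0 : ℝ) ≤ E := Nat.cast_nonneg E
  obtain ⟨C, C1, C2, C3⟩ : ∃ C : ℝ, 1458000 * (432 * g + 1) + 2 ≤ C ∧ 4320 * g * E ≤ C ∧ E ≤ C :=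
    ⟨1458000 * (432 * g + 1) + 2 + 4320 * g * E, by nlinarith, by nlinarith, by nlinarith⟩
  refine ⟨C, by linarith, fun η B K h0 h1 hB hK => ?_⟩
  have m1 : (2 : ℝ) ≤ B := by exact_mod_cast hB
  have l1 : 1 / 2 ≤ Real.log B := by
    have b1 : Real.log 2 ≤ Real.log B := Real.log_le_log (by norm_num) m1
    have := Real.log_two_gt_d9
    linarith
  have e2 : η ^ 2 ≤ η := by nlinarith
  have k0 : (0 : ℝ) ≤ K := Nat.cast_nonneg K
  have k1 : 16 * g ≤ η * K := by
    linarith [mul_le_mul_of_nonneg_right e2 k0, mul_le_mul_of_nonneg_left l1 (by linarith : 0 ≤ C)]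
  have k2 : (16 : ℝ) ≤ K := by linarith [mul_le_mul_of_nonneg_right h1 k0]
  have k3 : (0 : ℝ) < K := by linarith
  have k4 : 4320 * g * E * Real.log B ≤ η ^ 2 * K :=
    (mul_le_mul_of_nonneg_right C2 (by linarith)).trans hK
  have k5 : E * Real.log B ≤ K + 1 := by
    linarith [mul_le_mul_of_nonneg_right C3 (by linarith : 0 ≤ Real.log B),
      mul_le_mul_of_nonneg_right (e2.trans h1) k0]
  have W0 : (0 : ℝ) < (K + 1) ^ 9 := by positivity
  have V0 : (0 : ℝ) ≤ (9 * K + 1) ^ 7 := by positivity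
  have gW : ∀ X Y : ℝ, 0 ≤ X → g * X ≤ Y * (K + 1) ^ 2 →
      2916 * X * (9 * K + 1) ^ 7 ≤ Y * (K + 1) ^ 9 := fun X Y hX h =>
    calc _ = X * (2916 * (9 * K + 1) ^ 7) := by rw [mul_comm 2916 X, mul_assoc]
      _ ≤ X * (g * (K + 1) ^ 7) := mul_le_mul_of_nonneg_left (g2 K k0) hX
      _ = g * X * (K + 1) ^ 7 := by rw [mul_comm g X, mul_assoc]
      _ ≤ Y * (K + 1) ^ 2 * (K + 1) ^ 7 := mul_le_mul_of_nonneg_right h (by positivity)
      _ = _ := by rw [mul_assoc, ← pow_add]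
  have kR : K ≤ (K + 1) ^ 17 := (Nat.le_succ K).trans (Nat.le_self_pow (by norm_num) _)
  have r0 : 1 ≤ (K + 1) ^ 17 := Nat.one_le_pow _ _ K.succ_pos
  replace hDET := fun a c c' D n L P Q y => hDET a c c' B D K n L P Q y
  rw [show ((K : ℝ) + 1) ^ 17 = (((K + 1) ^ 17 : ℕ) : ℝ) by push_cast; rfl]
  generalize (K + 1) ^ 17 = R at kR r0 hDET ⊢
  generalize ((K : ℝ) + 1) ^ 9 = W at W0 gW hDET
  generalize (9 * (K : ℝ) + 1) ^ 7 = V at V0 gW hDET
  clear g2
  filter_upwards [ev_lin (13 + 20 * R) (c := 1 / (η * K)) (by positivity),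
    ev_lin (1 + R) (c := η / (1000 * (K + 1))) (by positivity),
    ev_lin (Real.log ((432 * g / η + 1) * W) + E * Real.log B + K * (E * Real.log B))
      (c := η / 20) (by positivity),
    ev_log (c := η / (20 * (8 * K + 1))) (by positivity), eventually_ge_atTop 1]
    with x E1 E2 E3 E4 E5 a c c' P ha hc hc' hcc cB cB' hP hy
  by_contra hs
  push Not at hs
  have x1 : (1 : ℝ) ≤ x := by exact_mod_cast E5
  obtain ⟨u, hu⟩ : ∃ u : ℝ, u = x / (η * K) := ⟨_, rfl⟩
  obtain ⟨v, hv⟩ : ∃ v : ℝ, v = η * x / (K + 1) := ⟨_, rfl⟩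
  have u0 : 0 < u := by rw [hu]; positivity
  have v0 : 0 < v := by rw [hv]; positivity
  have ux : η * K * u = x := by rw [hu]; field_simp
  have vx : v * (K + 1) = η * x := by rw [hv]; field_simp
  replace E1 : 13 + 20 * R ≤ u := E1.trans (le_of_eq (by rw [hu]; ring))
  replace E2 : 1 + R ≤ v / 1000 := E2.trans (le_of_eq (by rw [hv]; field_simp))
  obtain ⟨D, D1, D2⟩ : ∃ D : ℕ, 432 * g * u ≤ D ∧ (D : ℝ) ≤ 432 * g * u + 1 :=
    ⟨⌈432 * g * u⌉₊, Nat.le_ceil _, (Nat.ceil_lt_add_one (by positivity)).le⟩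
  obtain ⟨n, n1, n2⟩ : ∃ n : ℕ, (n : ℝ) ≤ v / 500 ∧ v / 500 ≤ n + 1 :=
    ⟨⌊v / 500⌋₊, Nat.floor_le (by positivity), (Nat.lt_floor_add_one _).le⟩
  have q0 : (1 : ℝ) ≤ R := by exact_mod_cast r0
  have n3 : (1 : ℝ) ≤ n := by linarith
  have n5 : n * (K + 1) ≤ η * x / 500 := by
    linarith [mul_le_mul_of_nonneg_right n1 (by linarith : (0 : ℝ) ≤ K + 1)]
  have c10 : (n : ℝ) * 16 ≤ η * x / 500 := by
    linarith [mul_le_mul_of_nonneg_left k2 (Nat.cast_nonneg (α := ℝ) n)]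
  have n4 : (n : ℝ) ≤ x := by linarith [mul_le_mul_of_nonneg_right h1 (Nat.cast_nonneg (α := ℝ) x)]
  have uv : η ^ 2 * u / 2 ≤ v := by
    have b0 : 0 ≤ η ^ 2 * u := by positivity
    have b1 := mul_le_mul_of_nonneg_left k2 b0
    have b2 : η ^ 2 * u / 2 * (K + 1) ≤ v * (K + 1) := by
      have b3 : v * (K + 1) = η ^ 2 * u * K := by rw [vx, ← ux]; ring
      linarith
    exact le_of_mul_le_mul_right b2 (by linarith)
  have hz := pts_COR (e := η ^ 2) (u := u) (C := C) (w := 432 * g + 1) (s := P.card) (K := K)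
    (D := D) (n := n) (R := R) (sq_nonneg η) (e2.trans h1) kR r0 u0 hs C1 (by linarith)
    (by linarith)
  have hi := hDET a c c' D n (Nat.lcmUpto n) P ((Ioc n x).filter Nat.Prime)
    (η * x - 7 / 5 * n) ha hc hc' hcc hB cB cB' hP (Nat.lcmUpto_ne_zero n)
    (fun k k1 k2 => Finset.dvd_lcm (f := id) (mem_Icc.2 ⟨k1, k2.le⟩)) hz
    (fun p hp => ⟨(mem_filter.1 hp).2, (mem_Ioc.1 (mem_filter.1 hp).1).1.le⟩)
    fun T ha => by
      have b1 := sum_union_inter (s₁ := ((Ioc n x).filter Nat.Prime).filter (Bad2 a c c' T))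
        (s₂ := (Ioc 0 n).filter Nat.Prime) (f := fun p : ℕ => Real.log p)
      have b2 := sum_nonneg (s := (((Ioc n x).filter Nat.Prime).filter (Bad2 a c c' T)) ∩
        (Ioc 0 n).filter Nat.Prime) fun p _ => Real.log_natCast_nonneg p
      have b3 := (hy T ha).trans (sum_le_sum_of_subset_of_nonneg
        (t := (((Ioc n x).filter Nat.Prime).filter (Bad2 a c c' T)) ∪ (Ioc 0 n).filter Nat.Prime)
        (fun p hp => by
          simp only [mem_union, mem_filter, mem_Ioc] at hp ⊢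
          by_cases hn : p ≤ n
          · exact Or.inr ⟨⟨hp.1.1.1, hn⟩, hp.1.2⟩
          · exact Or.inl ⟨⟨⟨not_le.1 hn, hp.1.1.2⟩, hp.1.2⟩, hp.2⟩)
        fun p _ _ => Real.log_natCast_nonneg p)
      linarith [th_le n]
  obtain ⟨N, hN⟩ : ∃ N : ℝ, N = D * W := ⟨_, rfl⟩
  rw [← hN] at hi
  have d1 : (1 : ℝ) ≤ D := by
    linarith [mul_le_mul_of_nonneg_right g1 u0.le]
  have d0 : (0 : ℝ) < D := by linarith
  have N0 : 0 < N := by rw [hN]; positivity
  have c1 : 2916 * ((D : ℝ) + 54 * K * x + 1) * V ≤ η * N / 4 := by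
    have c0 : η * K * 1 ≤ η * (K + 1) ^ 2 := by
      rw [mul_assoc]
      exact mul_le_mul_of_nonneg_left (by nlinarith only [k0]) h0.le
    have c2 : (D : ℝ) * (16 * g) ≤ D * (η * (K + 1) ^ 2) :=
      mul_le_mul_of_nonneg_left (by linarith) d0.le
    have c3 : 432 * g * u * K ^ 2 ≤ D * (K + 1) ^ 2 := by gcongr; linarith
    have c4 := mul_le_mul_of_nonneg_left c3 h0.le
    have c8 := mul_le_mul_of_nonneg_left d1 (by linarith : 0 ≤ g)
    refine (gW _ (η * D / 4) (by positivity) ?_).trans (le_of_eq (by rw [hN]; ring))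
    rw [← ux]
    linarith
  have c2 : ∑ p ∈ (Ioc n x).filter Nat.Prime,
      (2916 * (D + 54 * K * p + 1) * V : ℝ) * Real.log p ≤
      η * N / 4 * (7 / 5 * x) := by
    refine le_trans ?_ (mul_le_mul_of_nonneg_left (th_le x) (by positivity))
    rw [mul_sum]
    refine le_trans (sum_le_sum fun p hp => ?_) (sum_le_sum_of_subset_of_nonneg
      (filter_subset_filter _ (Ioc_subset_Ioc_left (Nat.zero_le n)))
      fun p _ _ => mul_nonneg (by positivity) (Real.log_natCast_nonneg p))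
    refine mul_le_mul_of_nonneg_right (le_trans ?_ c1) (Real.log_natCast_nonneg p)
    have : (p : ℝ) ≤ x := by exact_mod_cast (mem_Ioc.1 (mem_filter.1 hp).1).2
    gcongr
  have L0 : (0 : ℝ) < Nat.lcmUpto n := by exact_mod_cast Nat.lcmUpto_pos n
  have c3 : Real.log (N * (((B : ℝ) ^ E) ^ (D + n + K) * (n * Nat.lcmUpto n) ^ (8 * K))) =
      Real.log N + D * (E * Real.log B) + n * (E * Real.log B) + K * (E * Real.log B) +
        8 * K * Real.log n + 8 * K * Real.log (Nat.lcmUpto n) := by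
    have n0 : (n : ℝ) ≠ 0 := by positivity
    rw [Real.log_mul N0.ne' (by positivity), Real.log_mul (by positivity) (by positivity),
      Real.log_pow, Real.log_pow, Real.log_pow, Real.log_mul n0 L0.ne']
    push_cast
    ring
  have c4 : Real.log N ≤ Real.log ((432 * g / η + 1) * W) + Real.log x := by
    rw [← Real.log_mul (by positivity) (by positivity)]
    refine Real.log_le_log N0 ?_
    have c5 : u ≤ x / η := by
      rw [hu]
      gcongr
      exact le_mul_of_one_le_right h0.le (by linarith)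
    have c6 := mul_le_mul_of_nonneg_left c5 (by positivity : 0 ≤ 432 * g)
    rw [hN, mul_right_comm]
    refine mul_le_mul_of_nonneg_right ?_ (by positivity)
    rw [add_mul, div_mul_eq_mul_div, mul_div_assoc]
    linarith
  have c5 : 8 * K * Real.log n ≤ 8 * K * Real.log x := by gcongr
  have c6 : (8 * K + 1) * Real.log x ≤ η * x / 20 :=
    (mul_le_mul_of_nonneg_left E4 (by positivity)).trans (le_of_eq (by field_simp))
  have c7 : D * (E * Real.log B) ≤ η * x / 10 + E * Real.log B := by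
    have c8 := mul_le_mul_of_nonneg_right D2 (by positivity : 0 ≤ E * Real.log B)
    have c9 := mul_le_mul_of_nonneg_left k4 u0.le
    rw [← ux]
    linarith
  have c9 : 8 * K * Real.log (Nat.lcmUpto n) ≤ 9 / 100 * (η * x) := by
    linarith [mul_le_mul_of_nonneg_left (lcm_le n) (by linarith : (0 : ℝ) ≤ 8 * K)]
  have c11 : n * (E * Real.log B) ≤ η * x / 500 := by
    linarith [mul_le_mul_of_nonneg_left k5 (Nat.cast_nonneg (α := ℝ) n)]
  have c12 : 0 < η * x := by positivity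
  rw [c3] at hi
  have c13 : Real.log N + D * (E * Real.log B) + n * (E * Real.log B) + K * (E * Real.log B) +
      8 * K * Real.log n + 8 * K * Real.log (Nat.lcmUpto n) ≤ 45 / 100 * (η * x) := by
    linarith
  have c14 := mul_le_mul_of_nonneg_left c13 N0.le
  have c15 : N * (η * x - 7 / 5 * n) ≤ N * (80 / 100 * (η * x)) := by linarith
  have c16 := le_of_mul_le_mul_left c15 N0
  linarith

end Pool.Agent.MP_3e91a1_nt.TR
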