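import Pool.Agent.MP_3e91a1_nt.TR.St1
import Pool.Agent.MP_3e91a1_nt.CC.FEW

/-! From weights to counts. -/

set_option autoImplicit false

open Finset Filter

noncomputable section

namespace Pool.Agent.MP_3e91a1_nt.TR

theorem DNS_pf (hDNA : DNA_st) : DNS_st := by
  classical
  intro bad hb δ ε h0 h1
  filter_upwards [hDNA bad hb (δ / 2) ε (by positivity) h1] with M hM B
  have t1 : ∀ᶠ x : ℕ in atTop, 1 - δ / 4 < Chebyshev.theta x / x :=
    (Pool.Agent.MP_384f6f_nt.NW.stT.comp tendsto_natCast_atTop_atTop).eventually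
      (lt_mem_nhds (by linarith))
  have t2 : ∀ᶠ x : ℕ in atTop, ∀ T ∈ Icc 1 M, Chebyshev.theta (B T) / (δ / 4) ≤ x :=
    (eventually_all_finset _).2 fun T _ => tendsto_natCast_atTop_atTop.eventually_ge_atTop _
  filter_upwards [hM, t1, t2, eventually_ge_atTop 2] with x h2 h3 h4 h5
  have x1 : (1 : ℝ) < x := by exact_mod_cast h5
  refine le_trans ?_ h2
  rw [← Set.ncard_coe_finset]
  refine Nat.cast_le.2 (Set.ncard_le_ncard (fun T hT => ?_) (Finset.finite_toSet _))
  have hT' : T ∈ Icc 1 M := mem_Icc.2 ⟨hT.1, hT.2.1⟩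
  rw [mem_coe, mem_filter]
  refine ⟨hT', ?_⟩
  have h8 := h4 T hT'
  have h9 := hT.2.2
  have h10 := CC.split_FEW x (B T) (bad T)
  rw [lt_div_iff₀ (Real.log_pos x1)] at h9
  rw [div_le_iff₀ (by positivity)] at h8
  rw [lt_div_iff₀ (by linarith)] at h3
  linarith

end Pool.Agent.MP_3e91a1_nt.TR
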