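import Pool.Agent.MP_3e91a1_nt.TR.St1

set_option autoImplicit false

open Finset Filter

noncomputable section

namespace Pool.Agent.MP_3e91a1_nt.TR

theorem log_small_FEW (A ε : ℝ) (hA : 0 < A) (hε : 0 < ε) :
    ∀ᶠ M : ℕ in atTop, A * Real.log M ^ 17 ≤ ε * M := by
  have h := (Real.isLittleO_pow_log_id_atTop (n := 17)).bound (div_pos hε hA)
  have h2 := tendsto_natCast_atTop_atTop (R := ℝ) |>.eventually h
  filter_upwards [h2] with M hM
  have h3 : Real.log M ^ 17 ≤ ε / A * M := by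
    refine (le_abs_self _).trans ?_
    have : ‖(id (M : ℝ))‖ = M := by simp
    rw [this, Real.norm_eq_abs] at hM
    exact hM
  calc A * Real.log M ^ 17 ≤ A * (ε / A * M) := by gcongr
    _ = ε * M := by field_simp

theorem FEW_pf (hCOR : COR_st) : FEW_st := by
  classical
  obtain ⟨C₀, hC₀, hC⟩ := hCOR
  intro a ha c c' η ε hc hc' hcc hη hε
  set e : ℝ := min η 1 with he
  have he0 : 0 < e := lt_min hη one_pos
  have he1 : e ≤ 1 := min_le_right _ _
  have heη : e ≤ η := min_le_left _ _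
  have hA : 0 < C₀ / e ^ 2 * (C₀ / e ^ 2 + 2) ^ 17 := by positivity
  have hlog : ∀ᶠ M : ℕ in atTop, 1 ≤ Real.log M :=
    (Real.tendsto_log_atTop.comp tendsto_natCast_atTop_atTop).eventually_ge_atTop 1
  filter_upwards [log_small_FEW _ ε hA hε, hlog, eventually_ge_atTop 2, eventually_ge_atTop c,
    eventually_ge_atTop c'] with M hM1 hM2 hM3 hM4 hM5
  set K : ℕ := ⌈C₀ * Real.log M / e ^ 2⌉₊ with hK
  have hK1 : C₀ * Real.log M ≤ e ^ 2 * K := by
    have := Nat.le_ceil (C₀ * Real.log M / e ^ 2)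
    rw [← hK, div_le_iff₀ (by positivity)] at this
    linarith
  have hK2 : (K : ℝ) + 1 ≤ (C₀ / e ^ 2 + 2) * Real.log M := by
    have h0 : 0 ≤ C₀ * Real.log M / e ^ 2 := by positivity
    have := (Nat.ceil_lt_add_one h0).le
    rw [← hK] at this
    have h3 : (C₀ / e ^ 2 + 2) * Real.log M = C₀ * Real.log M / e ^ 2 + 2 * Real.log M := by ring
    rw [h3]
    linarith
  filter_upwards [hC e M K he0 he1 hM3 hK1] with x hx
  have key : ∀ P : Finset ℕ, (∀ t ∈ P, t ≤ M) →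
      (∀ t ∈ P, η * x ≤ ∑ p ∈ ((Ioc 0 x).filter Nat.Prime).filter (Bad2 a c c' t), Real.log p) →
      (P.card : ℝ) ≤ ε * M := by
    intro P hP1 hP2
    have h1 := hx a c c' P ha hc hc' hcc hM4 hM5 hP1 (fun t ht =>
      le_trans (mul_le_mul_of_nonneg_right heη (Nat.cast_nonneg _)) (hP2 t ht))
    have h2 : (P.card : ℝ) ≤ C₀ / e ^ 2 * ((K : ℝ) + 1) ^ 17 := by
      rw [div_mul_eq_mul_div, le_div_iff₀ (by positivity)]
      linarith
    refine h2.trans (le_trans ?_ hM1)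
    calc C₀ / e ^ 2 * ((K : ℝ) + 1) ^ 17
        ≤ C₀ / e ^ 2 * ((C₀ / e ^ 2 + 2) * Real.log M) ^ 17 := by gcongr
      _ = _ := by rw [mul_pow]; ring
  refine key _ (fun t ht => (Finset.mem_Icc.mp (Finset.mem_filter.mp ht).1).2) fun t ht => ?_
  refine le_trans (Finset.mem_filter.mp ht).2 (le_of_eq ?_)
  refine Finset.sum_congr ?_ fun _ _ => rfl
  ext p
  simp only [Finset.mem_filter, Bad2]

end Pool.Agent.MP_3e91a1_nt.TR
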