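import Pool.Agent.MP_3e91a1_nt.TR.St

/-! The Galois group of the two cubics is full. -/

set_option autoImplicit false

namespace Pool.Agent.MP_3e91a1_nt.TR

/-- the sign of a permutation of three letters -/
def sg_GAL (a : Equiv.Perm (Fin 3)) : ℤ := if a 1 = a 0 + 1 then 1 else -1

theorem mul_GAL : ∀ a b : Equiv.Perm (Fin 3), sg_GAL (a * b) = sg_GAL a * sg_GAL b := by decide

theorem or_GAL : ∀ a : Equiv.Perm (Fin 3), sg_GAL a = 1 ∨ sg_GAL a = -1 := by decide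

theorem odd_GAL : ∀ a : Equiv.Perm (Fin 3), sg_GAL a = -1 → a * a * a = a := by decide

theorem even_GAL : ∀ a : Equiv.Perm (Fin 3), sg_GAL a = 1 → a * a * a = 1 := by decide

theorem conj_GAL : ∀ a : Equiv.Perm (Fin 3), sg_GAL a = -1 → ∃ i, ∀ z : Equiv.Perm (Fin 3),
    z i ≠ i → z * a * z⁻¹ ≠ a ∧ sg_GAL (z * a * z⁻¹) = -1 := by decide

theorem gen_GAL : ∀ a b : Equiv.Perm (Fin 3), sg_GAL a = -1 → sg_GAL b = -1 → b ≠ a →
    ∀ g : Equiv.Perm (Fin 3), g = 1 ∨ g = a ∨ g = b ∨ g = a * b ∨ g = b * a ∨ g = a * b * a := by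
  decide

theorem val_GAL : ∀ a : Equiv.Perm (Fin 3),
    (a 0 = 0 ∧ a 1 = 1 ∧ a 2 = 2 ∧ sg_GAL a = 1) ∨ (a 0 = 1 ∧ a 1 = 2 ∧ a 2 = 0 ∧ sg_GAL a = 1) ∨
    (a 0 = 2 ∧ a 1 = 0 ∧ a 2 = 1 ∧ sg_GAL a = 1) ∨ (a 0 = 0 ∧ a 1 = 2 ∧ a 2 = 1 ∧ sg_GAL a = -1) ∨
    (a 0 = 1 ∧ a 1 = 0 ∧ a 2 = 2 ∧ sg_GAL a = -1) ∨
    (a 0 = 2 ∧ a 1 = 1 ∧ a 2 = 0 ∧ sg_GAL a = -1) := by decide

theorem half_GAL {G : Type} [Group G] (φ ψ : G →* Equiv.Perm (Fin 3)) (x : G)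
    (h1 : sg_GAL (φ x) = -1) (h2 : sg_GAL (ψ x) = 1) (h3 : ∀ i, ∃ z, φ z i ≠ i)
    (g : Equiv.Perm (Fin 3)) : ∃ σ, φ σ = g ∧ ψ σ = 1 := by
  obtain ⟨i, hi⟩ := conj_GAL _ h1
  obtain ⟨z, hz⟩ := h3 i
  obtain ⟨c1, c2⟩ := hi _ hz
  obtain ⟨u, u1, u2⟩ : ∃ u, φ u = φ x ∧ ψ u = 1 :=
    ⟨x * x * x, by rw [map_mul, map_mul, odd_GAL _ h1], by rw [map_mul, map_mul, even_GAL _ h2]⟩
  obtain ⟨v, v1, v2⟩ : ∃ v, φ v = φ z * φ x * (φ z)⁻¹ ∧ ψ v = 1 :=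
    ⟨z * u * z⁻¹, by simp [u1], by simp [u2]⟩
  rcases gen_GAL _ _ h1 c2 c1 g with h | h | h | h | h | h
  · exact ⟨1, by simp [h], by simp⟩
  · exact ⟨u, by rw [h, u1], u2⟩
  · exact ⟨v, by rw [h, v1], v2⟩
  · exact ⟨u * v, by rw [h, map_mul, u1, v1], by simp [u2, v2]⟩
  · exact ⟨v * u, by rw [h, map_mul, u1, v1], by simp [u2, v2]⟩
  · exact ⟨u * v * u, by rw [h, map_mul, map_mul, u1, v1], by simp [u2, v2]⟩

section

variable {K E : Type} [Field K] [Field E] [Algebra K E] [FiniteDimensional K E] [IsGalois K E]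

theorem move_GAL {d : K} (hd : ¬ IsSquare d) {δ : E} (h : δ ^ 2 = algebraMap K E d) :
    ∃ σ : E ≃ₐ[K] E, σ δ ≠ δ := by
  by_contra hn
  push Not at hn
  obtain ⟨y, hy⟩ := (IsGalois.mem_range_algebraMap_iff_fixed δ).2 hn
  refine hd ⟨y, (algebraMap K E).injective ?_⟩
  rw [← h, map_mul, hy, pow_two]

theorem one_GAL (T : K) (r : Fin 3 → E) (h : Tri (algebraMap K E T) (r 0) (r 1) (r 2))
    (hr : ∀ y : K, y * (y - 1) * (y + T) ≠ 1) (hd : ¬ IsSquare (dsc T)) :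
    ∃ (φ : (E ≃ₐ[K] E) →* Equiv.Perm (Fin 3)) (δ : E), (∀ σ i, σ (r i) = r (φ σ i)) ∧
      δ ^ 2 = algebraMap K E (dsc T) ∧ (∀ σ, σ δ = sg_GAL (φ σ) * δ) ∧ ∀ i, ∃ σ, φ σ i ≠ i := by
  obtain ⟨h1, h2, h3⟩ := h
  have hδ : ((r 0 - r 1) * (r 0 - r 2) * (r 1 - r 2)) ^ 2 = algebraMap K E (dsc T) := by
    have e : ((r 0 - r 1) * (r 0 - r 2) * (r 1 - r 2)) ^ 2 =
        (r 0 + r 1 + r 2) ^ 2 * (r 0 * r 1 + r 0 * r 2 + r 1 * r 2) ^ 2 -
          4 * (r 0 * r 1 + r 0 * r 2 + r 1 * r 2) ^ 3 - 4 * (r 0 + r 1 + r 2) ^ 3 * (r 0 * r 1 * r 2) +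
          18 * (r 0 + r 1 + r 2) * (r 0 * r 1 + r 0 * r 2 + r 1 * r 2) * (r 0 * r 1 * r 2) -
          27 * (r 0 * r 1 * r 2) ^ 2 := by ring
    rw [e, h1, h2, h3]
    simp only [dsc, map_sub, map_add, map_pow, map_mul, map_ofNat, map_one]
    ring
  have hδ0 : (r 0 - r 1) * (r 0 - r 2) * (r 1 - r 2) ≠ 0 := by
    intro h0
    rw [h0, zero_pow two_ne_zero, eq_comm, map_eq_zero] at hδ
    exact hd ⟨0, by rw [hδ, mul_zero]⟩
  have n01 : r 0 ≠ r 1 := sub_ne_zero.1 (left_ne_zero_of_mul (left_ne_zero_of_mul hδ0))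
  have n02 : r 0 ≠ r 2 := sub_ne_zero.1 (right_ne_zero_of_mul (left_ne_zero_of_mul hδ0))
  have n12 : r 1 ≠ r 2 := sub_ne_zero.1 (right_ne_zero_of_mul hδ0)
  have inj : Function.Injective r := by
    intro i j hij
    fin_cases i <;> fin_cases j <;>
      first
        | rfl
        | exact absurd hij n01
        | exact absurd hij n02
        | exact absurd hij n12
        | exact absurd hij n01.symm
        | exact absurd hij n02.symm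
        | exact absurd hij n12.symm
  have root : ∀ y : E, y * (y - 1) * (y + algebraMap K E T) = 1 ↔ ∃ j, y = r j := by
    intro y
    have e : y * (y - 1) * (y + algebraMap K E T) - 1 = (y - r 0) * (y - r 1) * (y - r 2) := by
      linear_combination y ^ 2 * h1 - y * h2 + h3
    rw [← sub_eq_zero, e]
    constructor
    · intro h0
      rcases mul_eq_zero.1 h0 with h0 | h0
      · rcases mul_eq_zero.1 h0 with h0 | h0
        · exact ⟨0, sub_eq_zero.1 h0⟩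
        · exact ⟨1, sub_eq_zero.1 h0⟩
      · exact ⟨2, sub_eq_zero.1 h0⟩
    · rintro ⟨j, rfl⟩
      fin_cases j <;> simp
  have ex : ∀ σ : E ≃ₐ[K] E, ∃ π : Equiv.Perm (Fin 3), ∀ i, σ (r i) = r (π i) := by
    intro σ
    have a : ∀ i, ∃ j, σ (r i) = r j := fun i => (root _).1 (by
      have := congrArg σ ((root (r i)).2 ⟨i, rfl⟩)
      simpa using this)
    choose f hf using a
    have fi : Function.Injective f := fun i j hij =>
      inj (σ.injective (by rw [hf, hf, hij]))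
    exact ⟨Equiv.ofBijective f (Finite.injective_iff_bijective.1 fi), hf⟩
  choose π hπ using ex
  refine ⟨MonoidHom.mk' π fun σ τ => Equiv.ext fun i => inj ?_,
    (r 0 - r 1) * (r 0 - r 2) * (r 1 - r 2), hπ, hδ, fun σ => ?_, fun i => ?_⟩
  · rw [← hπ, Equiv.Perm.mul_apply, ← hπ, ← hπ, AlgEquiv.mul_apply]
  · simp only [map_mul, map_sub, hπ, MonoidHom.mk'_apply]
    rcases val_GAL (π σ) with h | h | h | h | h | h <;> rw [h.1, h.2.1, h.2.2.1, h.2.2.2] <;>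
      push_cast <;> ring
  · by_contra hn
    push Not at hn
    obtain ⟨y, hy⟩ := (IsGalois.mem_range_algebraMap_iff_fixed (F := K) (r i)).2 fun σ => by
      rw [hπ]
      exact congrArg r (hn σ)
    refine hr y ((algebraMap K E).injective ?_)
    simp only [map_mul, map_sub, map_add, map_one, hy]
    exact (root _).2 ⟨i, rfl⟩

end

theorem GAL_pf : GAL_st := by
  intro K E _ _ _ _ _ _ T T' r r' h h' hr hr' hd hd' hdd π π'
  obtain ⟨φ, δ, a1, a2, a3, a4⟩ := one_GAL T r h hr hd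
  obtain ⟨ψ, δ', b1, b2, b3, b4⟩ := one_GAL T' r' h' hr' hd'
  obtain ⟨a, ha⟩ := move_GAL hd a2
  obtain ⟨b, hb⟩ := move_GAL hd' b2
  obtain ⟨c, hc⟩ := move_GAL hdd (δ := δ * δ') (by rw [mul_pow, a2, b2, map_mul])
  have sa : sg_GAL (φ a) = -1 := (or_GAL _).resolve_left fun e => ha (by rw [a3, e]; simp)
  have sb : sg_GAL (ψ b) = -1 := (or_GAL _).resolve_left fun e => hb (by rw [b3, e]; simp)
  have sc : (sg_GAL (φ c) = -1 ∧ sg_GAL (ψ c) = 1) ∨ (sg_GAL (φ c) = 1 ∧ sg_GAL (ψ c) = -1) := by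
    rcases or_GAL (φ c) with e | e <;> rcases or_GAL (ψ c) with e' | e'
    · exact absurd (by rw [map_mul, a3, b3, e, e']; simp) hc
    · exact Or.inr ⟨e, e'⟩
    · exact Or.inl ⟨e, e'⟩
    · exact absurd (by rw [map_mul, a3, b3, e, e']; simp) hc
  obtain ⟨x, y, x1, x2, y1, y2⟩ : ∃ x y, sg_GAL (φ x) = -1 ∧ sg_GAL (ψ x) = 1 ∧
      sg_GAL (φ y) = 1 ∧ sg_GAL (ψ y) = -1 := by
    rcases sc with ⟨c1, c2⟩ | ⟨c1, c2⟩
    · rcases or_GAL (φ b) with e | e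
      · exact ⟨c, b, c1, c2, e, sb⟩
      · exact ⟨c, b * c, c1, c2, by rw [map_mul, mul_GAL, e, c1]; rfl,
          by rw [map_mul, mul_GAL, sb, c2]; rfl⟩
    · rcases or_GAL (ψ a) with e | e
      · exact ⟨a, c, sa, e, c1, c2⟩
      · exact ⟨a * c, c, by rw [map_mul, mul_GAL, sa, c1]; rfl,
          by rw [map_mul, mul_GAL, e, c2]; rfl, c1, c2⟩
  obtain ⟨σ, s1, s2⟩ := half_GAL φ ψ x x1 x2 a4 π
  obtain ⟨τ, t1, t2⟩ := half_GAL ψ φ y y2 y1 b4 π'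
  refine ⟨σ * τ, fun i => ?_, fun i => ?_⟩
  · rw [a1, map_mul, s1, t2, mul_one]
  · rw [b1, map_mul, s2, t1, one_mul]

end Pool.Agent.MP_3e91a1_nt.TR
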