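import Pool.Agent.MP_3e91a1_nt.TR.St

/-! The chain rule. -/

set_option autoImplicit false

namespace Pool.Agent.MP_3e91a1_nt.TR

section

variable {F S : Type} [Field F] [CommRing S] {T a b e : S}

theorem sw_INT (h : Tri T a b e) : Tri T b a e :=
  ⟨by linear_combination h.1, by linear_combination h.2.1, by linear_combination h.2.2⟩

theorem rot_INT (h : Tri T a b e) : Tri T e a b :=
  ⟨by linear_combination h.1, by linear_combination h.2.1, by linear_combination h.2.2⟩

theorem root_INT (h : Tri T a b e) : a * (a - 1) * (a + T) = 1 := by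
  linear_combination a ^ 2 * h.1 - a * h.2.1 + h.2.2

theorem dsc_INT (h : Tri T a b e) :
    dsc T = -((a - b) * (a - e) * ((b - a) * (b - e)) * ((e - a) * (e - b))) := by
  rw [show -((a - b) * (a - e) * ((b - a) * (b - e)) * ((e - a) * (e - b))) =
    (a + b + e) ^ 2 * (a * b + a * e + b * e) ^ 2 - 4 * (a * b + a * e + b * e) ^ 3 -
      4 * (a + b + e) ^ 3 * (a * b * e) + 18 * (a + b + e) * (a * b + a * e + b * e) * (a * b * e) -
      27 * (a * b * e) ^ 2 by ring, h.1, h.2.1, h.2.2, dsc]
  ring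

theorem der_INT [IsDomain S] [Algebra F S] (δ : Derivation F S S) {c : ℕ} {τ γ E : S}
    (h : Tri (c * τ) a b e) (h0 : dsc (c * τ) ≠ 0) (hγ : γ * δ τ = dsc (c * τ) * E) :
    γ * δ a = th1 c a b e * E := by
  have d := congrArg δ (root_INT h)
  simp only [Derivation.leibniz, map_add, map_sub, Derivation.map_one_eq_zero,
    Derivation.map_natCast, smul_eq_mul] at d
  rw [dsc_INT h] at h0 hγ
  refine mul_left_cancel₀ (left_ne_zero_of_mul (left_ne_zero_of_mul (neg_ne_zero.1 h0))) ?_
  rw [th1]
  linear_combination γ * d - c * (a * (a - 1)) * hγ - γ * δ a * (2 * a * h.1 - h.2.1)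

end

theorem INT_pf : INT_st := by
  intro F S _ _ _ _ δ c c' g γ ⟨h, h'⟩ n n' hγ
  have hγ' := hγ.trans (mul_comm _ _)
  have A : ∀ i, γ * δ (g i) = th c c' g i := by
    simp only [Fin.forall_fin_succ, IsEmpty.forall_iff, and_true]
    exact ⟨hγ, der_INT δ h n hγ, der_INT δ (sw_INT h) n hγ, der_INT δ (rot_INT h) n hγ,
      der_INT δ h' n' hγ', der_INT δ (sw_INT h') n' hγ', der_INT δ (rot_INT h') n' hγ'⟩
  have r : ∀ {T a b e : S}, Tri T a b e →
      a * ((a - 1) * (a + T)) = 1 ∧ (a - 1) * (a * (a + T)) = 1 := fun h =>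
    ⟨by linear_combination root_INT h, by linear_combination root_INT h⟩
  have s : ∀ a : S, δ (a - 1) = δ a := fun a => by simp
  refine ⟨A, ?_, fun j => ?_, fun P => ?_⟩
  · simp only [Fin.forall_fin_succ, IsEmpty.forall_iff, and_true]
    exact ⟨(r h).1, (r h).2, (r (sw_INT h)).1, (r (sw_INT h)).2, (r h').1, (r h').2,
      (r (sw_INT h')).1, (r (sw_INT h')).2⟩
  · rw [lw, ← A, ← mul_assoc]
    congr 2
    revert j
    simp only [Fin.forall_fin_succ, IsEmpty.forall_iff, and_true]
    exact ⟨rfl, s _, rfl, s _, rfl, s _, rfl, s _⟩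
  · have B : ∀ i, MvPolynomial.aeval g (Th c c' F (MvPolynomial.X i)) = th c c' g i := fun i => by
      rw [Th, MvPolynomial.mkDerivation_X]
      fin_cases i <;> simp [th, th1, dsc]
    induction P using MvPolynomial.induction_on with
    | C a => simp
    | add p q hp hq => simp only [map_add, mul_add, hp, hq]
    | mul_X p i hp =>
      simp only [map_mul, Derivation.leibniz, smul_eq_mul, map_add, MvPolynomial.aeval_X, B, ← A,
        ← hp]
      ring

end Pool.Agent.MP_3e91a1_nt.TR
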