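import Pool.Agent.MP_3e91a1_nt.TR.St

/-! The relations between the roots of the two cubics do not depend on the choices. -/

set_option autoImplicit false

noncomputable section

namespace Pool.Agent.MP_3e91a1_nt.TR

/-- the cubic with parameter `T` -/
def cub_KER {K : Type} [CommRing K] (T : K) : Polynomial K :=
  Polynomial.X * (Polynomial.X - Polynomial.C 1) * (Polynomial.X + Polynomial.C T) - Polynomial.C 1

theorem fac_KER {S : Type} [CommRing S] {T a b e : S} (h : Tri T a b e) (y : S) :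
    y * (y - 1) * (y + T) - 1 = (y - a) * (y - b) * (y - e) := by
  obtain ⟨h1, h2, h3⟩ := h
  linear_combination y ^ 2 * h1 - y * h2 + h3

theorem map_KER {S S' : Type} [CommRing S] [CommRing S'] (φ : S →+* S') {T a b e : S}
    (h : Tri T a b e) : Tri (φ T) (φ a) (φ b) (φ e) := by
  obtain ⟨h1, h2, h3⟩ := h
  refine ⟨?_, ?_, ?_⟩
  · simpa using congrArg φ h1
  · simpa using congrArg φ h2
  · simpa using congrArg φ h3

theorem comap_KER {S S' : Type} [CommRing S] [CommRing S'] (φ : S →+* S')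
    (hφ : Function.Injective φ) {T a b e : S}
    (h : Tri (φ T) (φ a) (φ b) (φ e)) : Tri T a b e := by
  obtain ⟨h1, h2, h3⟩ := h
  refine ⟨hφ ?_, hφ ?_, hφ ?_⟩
  · simpa using h1
  · simpa using h2
  · simpa using h3

theorem dsc_KER {S : Type} [CommRing S] {T a b e : S} (h : Tri T a b e) :
    ((a - b) * (a - e) * (b - e)) ^ 2 = dsc T := by
  obtain ⟨h1, h2, h3⟩ := h
  have key : ((a - b) * (a - e) * (b - e)) ^ 2 =
      (a + b + e) ^ 2 * (a * b + a * e + b * e) ^ 2 - 4 * (a * b + a * e + b * e) ^ 3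
        - 4 * (a + b + e) ^ 3 * (a * b * e)
        + 18 * (a + b + e) * (a * b + a * e + b * e) * (a * b * e) - 27 * (a * b * e) ^ 2 := by
    ring
  rw [key, h1, h2, h3]
  unfold dsc
  ring

theorem mapdsc_KER {S S' : Type} [CommRing S] [CommRing S'] (φ : S →+* S') (T : S) :
    φ (dsc T) = dsc (φ T) := by
  unfold dsc
  simp only [map_sub, map_pow, map_add, map_mul, map_one, map_ofNat]

theorem cubmap_KER {K L : Type} [CommRing K] [CommRing L] (φ : K →+* L) {T : K} {a b e : L}
    (h : Tri (φ T) a b e) : (cub_KER T).map φ =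
      (Polynomial.X - Polynomial.C a) * (Polynomial.X - Polynomial.C b) *
        (Polynomial.X - Polynomial.C e) := by
  have h' := fac_KER (map_KER (Polynomial.C : L →+* Polynomial L) h) Polynomial.X
  rw [← h']
  unfold cub_KER
  simp only [Polynomial.map_sub, Polynomial.map_mul, Polynomial.map_add, Polynomial.map_X,
    Polynomial.map_C, map_one, Polynomial.map_one]

theorem splits_KER {K L : Type} [Field K] [Field L] (φ : K →+* L) {T : K} {a b e : L}
    (h : Tri (φ T) a b e) : ((cub_KER T).map φ).Splits := by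
  rw [cubmap_KER φ h]
  exact ((Polynomial.Splits.X_sub_C a).mul (Polynomial.Splits.X_sub_C b)).mul
    (Polynomial.Splits.X_sub_C e)

theorem ne_KER {K L : Type} [Field K] [Field L] (φ : K →+* L) {T : K} {a b e : L}
    (h : Tri (φ T) a b e) : (cub_KER T).map φ ≠ 0 := by
  rw [cubmap_KER φ h]
  exact mul_ne_zero (mul_ne_zero (Polynomial.X_sub_C_ne_zero a) (Polynomial.X_sub_C_ne_zero b))
    (Polynomial.X_sub_C_ne_zero e)

theorem root_KER {K L : Type} [Field K] [Field L] (φ : K →+* L) {T : K} {a : Fin 3 → L}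
    (h : Tri (φ T) (a 0) (a 1) (a 2)) (i : Fin 3) : ((cub_KER T).map φ).eval (a i) = 0 := by
  rw [cubmap_KER φ h]
  fin_cases i <;> simp

/-- two orderings of the roots differ by a permutation -/
theorem perm_KER {E : Type} [Field E] {T : E} {r s : Fin 3 → E} (hr : Tri T (r 0) (r 1) (r 2))
    (hs : Tri T (s 0) (s 1) (s 2)) (hd : dsc T ≠ 0) :
    ∃ π : Equiv.Perm (Fin 3), ∀ i, r (π i) = s i := by
  have h0 : (s 0 - s 1) * (s 0 - s 2) * (s 1 - s 2) ≠ 0 := by
    intro h
    apply hd
    rw [← dsc_KER hs, h]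
    simp
  have h01 : s 0 ≠ s 1 := fun h => h0 (by rw [h]; simp)
  have h02 : s 0 ≠ s 2 := fun h => h0 (by rw [h]; simp)
  have h12 : s 1 ≠ s 2 := fun h => h0 (by rw [h]; simp)
  have hinj : Function.Injective s := by
    intro i j hij
    fin_cases i <;> fin_cases j <;> first
      | rfl
      | exact absurd hij h01
      | exact absurd hij h02
      | exact absurd hij h12
      | exact absurd hij h01.symm
      | exact absurd hij h02.symm
      | exact absurd hij h12.symm
  have hex : ∀ i, ∃ j, r j = s i := by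
    intro i
    have h1 : (s i - r 0) * (s i - r 1) * (s i - r 2) = 0 := by
      rw [← fac_KER hr, fac_KER hs]
      fin_cases i <;> simp
    rcases mul_eq_zero.mp h1 with h2 | h2
    · rcases mul_eq_zero.mp h2 with h3 | h3
      · exact ⟨0, (sub_eq_zero.mp h3).symm⟩
      · exact ⟨1, (sub_eq_zero.mp h3).symm⟩
    · exact ⟨2, (sub_eq_zero.mp h2).symm⟩
  choose j hj using hex
  have hji : Function.Injective j := by
    intro i i' h
    apply hinj
    rw [← hj i, ← hj i', h]
  exact ⟨Equiv.ofBijective j (Finite.injective_iff_bijective.mp hji), hj⟩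

/-- roots in the splitting field over given roots -/
theorem lift_KER {K E L : Type} [Field K] [Field E] [Field L] [Algebra K E] [Algebra K L]
    (p : Polynomial K) (hp : (p.map (algebraMap K E)).Splits) (hp0 : p ≠ 0) (ι : E →ₐ[K] L)
    {T : K} (hdvd : cub_KER T ∣ p) {a : Fin 3 → L}
    (h : Tri (algebraMap K L T) (a 0) (a 1) (a 2)) :
    ∃ r : Fin 3 → E, (∀ i, ι (r i) = a i) ∧ Tri (algebraMap K E T) (r 0) (r 1) (r 2) := by
  have hex : ∀ i, ∃ x : E, ι x = a i := by
    intro i
    have h1 : a i ∈ p.rootSet L := by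
      rw [Polynomial.mem_rootSet]
      refine ⟨hp0, ?_⟩
      obtain ⟨q, rfl⟩ := hdvd
      rw [map_mul, Polynomial.aeval_def, Polynomial.eval₂_eq_eval_map, root_KER _ h i, zero_mul]
    rw [← hp.image_rootSet ι] at h1
    obtain ⟨x, -, hx⟩ := h1
    exact ⟨x, hx⟩
  choose r hr using hex
  refine ⟨r, hr, ?_⟩
  apply comap_KER (ι : E →+* L) ι.injective
  have h2 : (ι : E →+* L) (algebraMap K E T) = algebraMap K L T := ι.commutes T
  have h3 : ∀ i, (ι : E →+* L) (r i) = a i := hr
  rw [h2, h3, h3, h3]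
  exact h

/-- a common field for two choices of the roots -/
theorem core_KER (hGAL : GAL_st) (K L L' : Type) [Field K] [CharZero K] [Field L] [Field L']
    (φ : K →+* L) (φ' : K →+* L') (T T' : K) (a b : Fin 3 → L) (a' b' : Fin 3 → L')
    (ha : Tri (φ T) (a 0) (a 1) (a 2)) (hb : Tri (φ T') (b 0) (b 1) (b 2))
    (ha' : Tri (φ' T) (a' 0) (a' 1) (a' 2)) (hb' : Tri (φ' T') (b' 0) (b' 1) (b' 2))
    (h1 : ∀ y : K, y * (y - 1) * (y + T) ≠ 1) (h2 : ∀ y : K, y * (y - 1) * (y + T') ≠ 1)
    (h3 : ¬ IsSquare (dsc T)) (h4 : ¬ IsSquare (dsc T')) (h5 : ¬ IsSquare (dsc T * dsc T')) :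
    ∃ (E : Type) (_ : Field E) (j : K →+* E) (ι : E →+* L) (ι' : E →+* L') (r s : Fin 3 → E),
      (∀ x, ι (j x) = φ x) ∧ (∀ x, ι' (j x) = φ' x) ∧ (∀ i, ι (r i) = a i) ∧
      (∀ i, ι (s i) = b i) ∧ (∀ i, ι' (r i) = a' i) ∧ ∀ i, ι' (s i) = b' i := by
  let _ : Algebra K L := φ.toAlgebra
  let _ : Algebra K L' := φ'.toAlgebra
  have hφ : algebraMap K L = φ := rfl
  have hφ' : algebraMap K L' = φ' := rfl
  let p : Polynomial K := cub_KER T * cub_KER T'
  have hp0 : p ≠ 0 := by
    refine mul_ne_zero ?_ ?_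
    · intro h
      exact ne_KER φ ha (by rw [h, Polynomial.map_zero])
    · intro h
      exact ne_KER φ hb (by rw [h, Polynomial.map_zero])
  have hL : (p.map (algebraMap K L)).Splits := by
    rw [Polynomial.map_mul]
    exact (splits_KER φ ha).mul (splits_KER φ hb)
  have hL' : (p.map (algebraMap K L')).Splits := by
    rw [Polynomial.map_mul]
    exact (splits_KER φ' ha').mul (splits_KER φ' hb')
  let E := p.SplittingField
  have hE : (p.map (algebraMap K E)).Splits := Polynomial.SplittingField.splits p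
  let ι : E →ₐ[K] L := Polynomial.IsSplittingField.lift E p hL
  let ι' : E →ₐ[K] L' := Polynomial.IsSplittingField.lift E p hL'
  obtain ⟨r, hr, hrT⟩ := lift_KER p hE hp0 ι (dvd_mul_right _ _) (a := a) ha
  obtain ⟨s, hs, hsT⟩ := lift_KER p hE hp0 ι (dvd_mul_left _ _) (a := b) hb
  obtain ⟨r', hr', hrT'⟩ := lift_KER p hE hp0 ι' (dvd_mul_right _ _) (a := a') ha'
  obtain ⟨s', hs', hsT'⟩ := lift_KER p hE hp0 ι' (dvd_mul_left _ _) (a := b') hb'
  have hd : ∀ U : K, ¬ IsSquare (dsc U) → dsc (algebraMap K E U) ≠ 0 := by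
    intro U hU h
    rw [← mapdsc_KER, map_eq_zero] at h
    exact hU (h ▸ IsSquare.zero)
  obtain ⟨π, hπ⟩ := perm_KER hrT hrT' (hd T h3)
  obtain ⟨π', hπ'⟩ := perm_KER hsT hsT' (hd T' h4)
  have : IsGalois K E := IsGalois.mk
  obtain ⟨σ, hσ, hσ'⟩ := hGAL K E T T' r s hrT hsT h1 h2 h3 h4 h5 π π'
  refine ⟨E, inferInstance, algebraMap K E, (ι : E →+* L),
    ((ι'.comp (σ : E →ₐ[K] E) : E →ₐ[K] L') : E →+* L'), r, s, fun x => ι.commutes x,
    fun x => (ι'.comp (σ : E →ₐ[K] E)).commutes x, hr, hs, fun i => ?_, fun i => ?_⟩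
  · show ι' (σ (r i)) = a' i
    rw [hσ, hπ, hr']
  · show ι' (σ (s i)) = b' i
    rw [hσ', hπ', hs']

/-- evaluation of rational functions at a transcendental element -/
theorem rat_KER (F S : Type) [Field F] [CommRing S] [IsDomain S] [Algebra F S] (x : S)
    (hx : Transcendental F x) : ∃ φ : RatFunc F →+* FractionRing S,
      φ RatFunc.X = algebraMap S (FractionRing S) x ∧
      ∀ q : F, φ (RatFunc.C q) = algebraMap S (FractionRing S) (algebraMap F S q) := by
  let ψ : Polynomial F →+* FractionRing S :=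
    (algebraMap S (FractionRing S)).comp (Polynomial.aeval x : Polynomial F →ₐ[F] S)
  have hψ : Function.Injective ψ :=
    (IsFractionRing.injective S (FractionRing S)).comp (transcendental_iff_injective.mp hx)
  refine ⟨IsFractionRing.lift (A := Polynomial F) (K := RatFunc F) hψ, ?_, fun q => ?_⟩
  · rw [← RatFunc.algebraMap_X, IsFractionRing.lift_algebraMap]
    simp [ψ]
  · rw [← RatFunc.algebraMap_C, IsFractionRing.lift_algebraMap]
    simp [ψ]

theorem KER_pf (hGAL : GAL_st) (hNSQ : NSQ_st) : KER_st := by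
  intro F S S' _ _ _ _ _ _ _ _ c c' g g' hc hc' hcc hg hg' hD hD' P hP
  obtain ⟨φ, hφX, hφC⟩ := rat_KER F S (g 0) hg
  obtain ⟨φ', hφX', hφC'⟩ := rat_KER F S' (g' 0) hg'
  obtain ⟨n1, n2, n3⟩ := hNSQ F c c' hc hc' hcc
  obtain ⟨n4, n5, -⟩ := hNSQ F c' c hc' hc hcc.symm
  let A := algebraMap S (FractionRing S)
  let A' := algebraMap S' (FractionRing S')
  have e1 : ∀ n : ℕ, φ ((n : RatFunc F) * RatFunc.X) = A (n * g 0) := by
    intro n
    rw [map_mul, map_mul, map_natCast, map_natCast, hφX]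
  have e2 : ∀ n : ℕ, φ' ((n : RatFunc F) * RatFunc.X) = A' (n * g' 0) := by
    intro n
    rw [map_mul, map_mul, map_natCast, map_natCast, hφX']
  obtain ⟨E, _, j, ι, ι', r, s, k1, k2, k3, k4, k5, k6⟩ :=
    core_KER hGAL (RatFunc F) (FractionRing S) (FractionRing S') φ φ'
      ((c : RatFunc F) * RatFunc.X) ((c' : RatFunc F) * RatFunc.X)
      ![A (g 1), A (g 2), A (g 3)] ![A (g 4), A (g 5), A (g 6)]
      ![A' (g' 1), A' (g' 2), A' (g' 3)] ![A' (g' 4), A' (g' 5), A' (g' 6)]
      (by rw [e1]; exact map_KER A hD.1) (by rw [e1]; exact map_KER A hD.2)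
      (by rw [e2]; exact map_KER A' hD'.1) (by rw [e2]; exact map_KER A' hD'.2)
      n1 n4 n2 n5 n3
  let w : Fin 7 → E := ![j RatFunc.X, r 0, r 1, r 2, s 0, s 1, s 2]
  let Ψ : MvPolynomial (Fin 7) F →+* E :=
    MvPolynomial.eval₂Hom (j.comp (RatFunc.C : F →+* RatFunc F)) w
  have m1 : ∀ i, ι (w i) = A (g i) := by
    intro i
    fin_cases i
    · exact (k1 _).trans hφX
    · exact k3 0
    · exact k3 1
    · exact k3 2
    · exact k4 0
    · exact k4 1
    · exact k4 2
  have m2 : ∀ i, ι' (w i) = A' (g' i) := by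
    intro i
    fin_cases i
    · exact (k2 _).trans hφX'
    · exact k5 0
    · exact k5 1
    · exact k5 2
    · exact k6 0
    · exact k6 1
    · exact k6 2
  have q1 : ι.comp Ψ = A.comp (MvPolynomial.aeval g : MvPolynomial (Fin 7) F →ₐ[F] S) := by
    apply MvPolynomial.ringHom_ext
    · intro q
      simp [Ψ, k1, hφC, A]
    · intro i
      simp [Ψ, m1]
  have q2 : ι'.comp Ψ = A'.comp (MvPolynomial.aeval g' : MvPolynomial (Fin 7) F →ₐ[F] S') := by
    apply MvPolynomial.ringHom_ext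
    · intro q
      simp [Ψ, k2, hφC', A']
    · intro i
      simp [Ψ, m2]
  have t1 : ι (Ψ P) = A (MvPolynomial.aeval g P) := RingHom.congr_fun q1 P
  have t2 : ι' (Ψ P) = A' (MvPolynomial.aeval g' P) := RingHom.congr_fun q2 P
  rw [hP, map_zero, map_eq_zero] at t1
  rw [t1, map_zero] at t2
  exact IsFractionRing.injective S' (FractionRing S') (t2.symm.trans (map_zero _).symm)

end Pool.Agent.MP_3e91a1_nt.TR
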