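import Pool.Agent.MP_3e91a1_nt.TR.St

/-! No roots and no squares in the field of rational functions. -/

set_option autoImplicit false

open Polynomial

noncomputable section

namespace Pool.Agent.MP_3e91a1_nt.TR

theorem int_NSQ {F : Type} [Field F] (y : RatFunc F) (f : (F[X])[X]) (hf : f.Monic)
    (h : Polynomial.aeval y f = 0) : ∃ p : F[X], algebraMap F[X] (RatFunc F) p = y :=
  IsIntegrallyClosed.algebraMap_eq_of_integral ⟨f, hf, h⟩

theorem map_NSQ {F : Type} [Field F] (c : ℕ) :
    algebraMap F[X] (RatFunc F) ((c : F[X]) * X) = (c : RatFunc F) * RatFunc.X := by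
  rw [map_mul, map_natCast, RatFunc.algebraMap_X]

theorem dsc_map_NSQ {F : Type} [Field F] (c : ℕ) :
    algebraMap F[X] (RatFunc F) (dsc ((c : F[X]) * X)) = dsc ((c : RatFunc F) * RatFunc.X) := by
  rw [← map_NSQ]
  simp only [dsc, map_sub, map_add, map_pow, map_mul, map_one, map_ofNat]

theorem sq_NSQ {F : Type} [Field F] (d : F[X]) (h : IsSquare (algebraMap F[X] (RatFunc F) d)) :
    ∃ q : F[X], d = q * q := by
  obtain ⟨y, hy⟩ := h
  obtain ⟨p, hp⟩ := int_NSQ y (X ^ 2 - C d) (monic_X_pow_sub_C d (by norm_num)) (by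
    rw [map_sub, map_pow, aeval_X, aeval_C, hy]; ring)
  refine ⟨p, RatFunc.algebraMap_injective F ?_⟩
  rw [map_mul, hp, hy]

theorem der_NSQ {F : Type} [Field F] (c : ℕ) :
    derivative (dsc ((c : F[X]) * X)) = (2 * (c : F[X])) *
      ((((c : F[X]) * X) ^ 2 + 3 * ((c : F[X]) * X) - 1) * (2 * ((c : F[X]) * X) + 3)) := by
  have h32 : derivative (32 : F[X]) = 0 := derivative_ofNat 32
  have h3 : derivative (3 : F[X]) = 0 := derivative_ofNat 3
  simp only [dsc, pow_two, derivative_sub, derivative_add, derivative_mul, derivative_natCast,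
    derivative_X, derivative_one, h32, h3]
  ring

theorem unit_NSQ {F : Type} [Field F] [CharZero F] (n : ℕ) (hn : n ≠ 0) : IsUnit (n : F[X]) := by
  rw [← C_eq_natCast]
  exact isUnit_C.2 (IsUnit.mk0 _ (Nat.cast_ne_zero.2 hn))

theorem cop_NSQ {R : Type} [CommRing R] (a b u s t : R) (hu : IsUnit u) (h : s * a + t * b = u) :
    IsCoprime a b := by
  obtain ⟨v, hv⟩ := hu.exists_left_inv
  exact ⟨v * s, v * t, by rw [← hv, ← h]; ring⟩

theorem sqf_NSQ {F : Type} [Field F] [CharZero F] (c : ℕ) (hc : 0 < c) :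
    Squarefree (dsc ((c : F[X]) * X)) := by
  refine Separable.squarefree ?_
  rw [separable_def, der_NSQ]
  refine IsCoprime.mul_right ?_ (IsCoprime.mul_right ?_ ?_)
  · refine cop_NSQ _ _ ((2 * c : ℕ) : F[X]) 0 1 (unit_NSQ _ (by omega)) ?_
    push_cast; ring
  · refine cop_NSQ _ _ ((32 : ℕ) : F[X]) (-1) (((c : F[X]) * X) ^ 2 + 3 * ((c : F[X]) * X) - 1)
      (unit_NSQ _ (by omega)) ?_
    simp only [dsc]; push_cast; ring
  · refine cop_NSQ _ _ ((343 : ℕ) : F[X]) (-16)
      ((2 * ((c : F[X]) * X) + 3) ^ 3 - 26 * (2 * ((c : F[X]) * X) + 3)) (unit_NSQ _ (by omega)) ?_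
    simp only [dsc]; push_cast; ring

theorem root_NSQ {F : Type} [Field F] [CharZero F] (c : ℕ) (hc : 0 < c) (y : RatFunc F) :
    y * (y - 1) * (y + (c : RatFunc F) * RatFunc.X) ≠ 1 := by
  intro h
  obtain ⟨p, hp⟩ := int_NSQ y (X * (X - C 1) * (X + C ((c : F[X]) * X)) - C 1) (by
    have hm : (X * (X - C 1) * (X + C ((c : F[X]) * X)) : (F[X])[X]).Monic :=
      (monic_X.mul (monic_X_sub_C _)).mul (monic_X_add_C _)
    refine hm.sub_of_left ?_
    rw [degree_mul, degree_mul, degree_X, degree_X_sub_C, degree_X_add_C]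
    exact degree_C_le.trans_lt (by decide)) (by
    simp only [map_sub, map_mul, map_add, aeval_X, aeval_C, map_one, map_natCast,
      RatFunc.algebraMap_X]
    rw [h, sub_self])
  have h1 : p * (p - 1) * (p + (c : F[X]) * X) = 1 := by
    refine RatFunc.algebraMap_injective F ?_
    rw [map_mul, map_mul, map_sub, map_add, map_NSQ, map_one, hp, h]
  have hu1 : IsUnit p := IsUnit.of_mul_eq_one ((p - 1) * (p + (c : F[X]) * X)) (by
    linear_combination h1)
  have hu2 : IsUnit (p + (c : F[X]) * X) := IsUnit.of_mul_eq_one (p * (p - 1)) (by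
    linear_combination h1)
  obtain ⟨a, -, ha⟩ := isUnit_iff.1 hu1
  obtain ⟨b, -, hb⟩ := isUnit_iff.1 hu2
  rw [← ha] at hb
  have h2 := congrArg derivative hb
  simp only [derivative_C, derivative_add, derivative_mul, derivative_natCast, derivative_X,
    zero_mul, zero_add, mul_one] at h2
  exact (unit_NSQ (F := F) c (by omega)).ne_zero h2.symm

theorem NSQ_pf : NSQ_st := by
  intro F _ _ c c' hc hc' hne
  refine ⟨root_NSQ c hc, ?_, ?_⟩
  · intro h
    rw [← dsc_map_NSQ] at h
    obtain ⟨q, hq⟩ := sq_NSQ _ h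
    have hu : IsUnit q := sqf_NSQ c hc q (hq ▸ dvd_rfl)
    obtain ⟨a, -, ha⟩ := isUnit_iff.1 hu
    have h2 := congrArg (fun f => eval 0 (derivative f)) hq
    simp only [der_NSQ, ← ha, derivative_mul, derivative_C, eval_mul, eval_add, eval_sub, eval_pow,
      eval_X, eval_natCast, eval_ofNat, eval_one, eval_zero, zero_mul, mul_zero, add_zero] at h2
    have h3 : (c : F) = 0 := by linear_combination (-1 / 6 : F) * h2
    exact hc.ne' (Nat.cast_eq_zero.1 h3)
  · intro h
    rw [← dsc_map_NSQ, ← dsc_map_NSQ, ← map_mul] at h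
    obtain ⟨q, hq⟩ := sq_NSQ _ h
    have hs := sqf_NSQ (F := F) c hc
    have hd : dsc ((c : F[X]) * X) ∣ q := by
      refine (hs.dvd_pow_iff_dvd (n := 2) (by norm_num)).1 ?_
      rw [pow_two, ← hq]
      exact dvd_mul_right _ _
    obtain ⟨r, hr⟩ := hd
    have h1 : dsc ((c' : F[X]) * X) = r * r * dsc ((c : F[X]) * X) := by
      refine mul_left_cancel₀ hs.ne_zero ?_
      rw [hq]
      conv_lhs => rw [hr]
      ring
    have hu : IsUnit r := sqf_NSQ c' hc' r (h1 ▸ dvd_mul_right _ _)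
    obtain ⟨a, -, ha⟩ := isUnit_iff.1 hu
    have h0 := congrArg (eval 0) h1
    have h2 := congrArg (fun f => eval 0 (derivative f)) h1
    simp only [der_NSQ, ← ha, derivative_mul, derivative_C, eval_mul, eval_add, eval_sub, eval_pow,
      eval_X, eval_C, eval_natCast, eval_ofNat, eval_one, eval_zero, zero_mul, mul_zero, add_zero,
      zero_add] at h2
    simp only [dsc, ← ha, eval_mul, eval_add, eval_sub, eval_pow, eval_X, eval_C, eval_natCast,
      eval_ofNat, eval_one, mul_zero] at h0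
    have h3 : a * a = 1 := by linear_combination (1 / 31 : F) * h0
    rw [h3] at h2
    have h4 : (c : F) = c' := by linear_combination (1 / 6 : F) * h2
    exact hne (Nat.cast_injective h4)

end Pool.Agent.MP_3e91a1_nt.TR
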