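import Pool.Agent.MP_3e91a1_nt.TR.St

/-! Reduction of the monomials by the cubic relations. -/

set_option autoImplicit false

open Finset Polynomial

namespace Pool.Agent.MP_3e91a1_nt.TR

theorem pow_RED (c n : ℕ) : ∃ q : Fin 3 → ℤ[X], (∀ j, (q j).natDegree ≤ n) ∧
    ∀ (S : Type) [CommRing S] (τ a : S), a ^ 3 = (1 - c * τ) * a ^ 2 + c * τ * a + 1 →
      a ^ n = ∑ j, aeval τ (q j) * a ^ (j : ℕ) := by
  induction n with
  | zero =>
    refine ⟨![1, 0, 0], fun j => ?_, fun S _ τ a _ => ?_⟩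
    · fin_cases j <;> simp
    · simp [Fin.sum_univ_three]
  | succ n ih =>
    obtain ⟨q, hq, h⟩ := ih
    have h2 : (C (c : ℤ) * X * q 2).natDegree ≤ n + 1 := by
      refine natDegree_mul_le.trans ?_
      have h3 : (C (c : ℤ) * X).natDegree ≤ 1 := (natDegree_C_mul_le _ _).trans natDegree_X_le
      have := hq 2
      omega
    refine ⟨![q 2, q 0 + C (c : ℤ) * X * q 2, q 1 + q 2 - C (c : ℤ) * X * q 2], fun j => ?_,
      fun S _ τ a ha => ?_⟩
    · fin_cases j
      · exact (hq 2).trans (Nat.le_succ n)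
      · exact (natDegree_add_le _ _).trans (max_le ((hq 0).trans (Nat.le_succ n)) h2)
      · exact (natDegree_sub_le _ _).trans (max_le ((natDegree_add_le _ _).trans
          (max_le ((hq 1).trans (Nat.le_succ n)) ((hq 2).trans (Nat.le_succ n)))) h2)
    · rw [pow_succ, h S τ a ha]
      simp only [Fin.sum_univ_three, Matrix.cons_val_zero, Matrix.cons_val_one, Matrix.cons_val,
        map_add, map_sub, map_mul, map_natCast, aeval_X, Fin.val_zero, Fin.val_one, Fin.val_two,
        Int.cast_natCast]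
      linear_combination (aeval τ (q 2)) * ha

theorem cub_RED {S : Type} [CommRing S] {T a b e : S} (h : Tri T a b e) :
    a ^ 3 = (1 - T) * a ^ 2 + T * a + 1 ∧ b ^ 3 = (1 - T) * b ^ 2 + T * b + 1 ∧
      e ^ 3 = (1 - T) * e ^ 2 + T * e + 1 := by
  obtain ⟨h1, h2, h3⟩ := h
  refine ⟨?_, ?_, ?_⟩
  · linear_combination a ^ 2 * h1 - a * h2 + h3
  · linear_combination b ^ 2 * h1 - b * h2 + h3
  · linear_combination e ^ 2 * h1 - e * h2 + h3

theorem RED_pf : RED_st := by
  intro c c' B α hB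
  choose q hq h using pow_RED
  let k : Fin 6 → ℕ := ![c, c, c, c', c', c']
  let Q : (Fin 6 → Fin 3) → ℤ[X] := fun β => X ^ α 0 * ∏ i : Fin 6, q (k i) (α i.succ) (β i)
  have hQ : ∀ β, (Q β).natDegree < B + 1 := fun β => by
    have h1 : (∏ i : Fin 6, q (k i) (α i.succ) (β i)).natDegree ≤ ∑ i : Fin 6, α i.succ :=
      (natDegree_prod_le _ _).trans (Finset.sum_le_sum fun i _ => hq _ _ _)
    have h2 : (Q β).natDegree ≤ _ := natDegree_mul_le
    rw [natDegree_X_pow] at h2
    rw [Fin.sum_univ_succ] at hB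
    omega
  refine ⟨fun r => (Q r.2).coeff r.1, fun S _ g hg => ?_⟩
  have hc : ∀ i : Fin 6,
      g i.succ ^ 3 = (1 - k i * g 0) * g i.succ ^ 2 + k i * g 0 * g i.succ + 1 := by
    obtain ⟨a1, a2, a3⟩ := cub_RED hg.1
    obtain ⟨a4, a5, a6⟩ := cub_RED hg.2
    intro i
    fin_cases i
    exacts [a1, a2, a3, a4, a5, a6]
  rw [Fin.prod_univ_succ, Finset.prod_congr rfl fun i _ => h (k i) (α i.succ) S (g 0) _ (hc i),
    Finset.prod_univ_sum, Fintype.piFinset_univ, Finset.mul_sum, Fintype.sum_prod_type_right]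
  refine Finset.sum_congr rfl fun β _ => ?_
  have e1 : aeval (g 0) (Q β) = ∑ e : Fin (B + 1), ((Q β).coeff e : S) * g 0 ^ (e : ℕ) := by
    rw [aeval_eq_sum_range' (hQ β), Finset.sum_range]
    simp only [zsmul_eq_mul]
  simp only [← mul_assoc]
  rw [← Finset.sum_mul, ← e1, Finset.prod_mul_distrib]
  simp only [Q, map_mul, map_pow, aeval_X, map_prod, mul_assoc]

end Pool.Agent.MP_3e91a1_nt.TR
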