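import Pool.Agent.MP_3e91a1_nt.TR.St1

/-! The roots of the cubic, and the count for any property that follows from a good prime. -/

set_option autoImplicit false

open Filter NumberField Polynomial

namespace Pool.Agent.MP_3e91a1_nt.TR

theorem roots_RTS (T : ℕ) : ∃ a : Fin 3 → Zb, Tri (T : Zb) (a 0) (a 1) (a 2) := by
  let F := AlgebraicClosure ℚ
  obtain ⟨a, ha⟩ := IsAlgClosed.exists_root (X ^ 3 + C ((T : F) - 1) * X ^ 2 - C (T : F) * X - 1)
    (ne_of_gt (natDegree_pos_iff_degree_pos.1 (by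
      have : (X ^ 3 + C ((T : F) - 1) * X ^ 2 - C (T : F) * X - 1).natDegree = 3 := by
        compute_degree!
      omega)))
  have h1 : a ^ 3 + (T - 1) * a ^ 2 - T * a - 1 = 0 := by simpa using ha
  obtain ⟨s, hs⟩ := IsAlgClosed.exists_pow_nat_eq
    ((1 - T - a) ^ 2 - 4 * ((a - 1) * (a + T))) two_pos
  have int : ∀ y : F, y ^ 3 + (T - 1) * y ^ 2 - T * y - 1 = 0 → IsIntegral ℤ y := fun y hy =>
    ⟨X ^ 3 + C ((T : ℤ) - 1) * X ^ 2 - C (T : ℤ) * X - 1, by monicity!, by simpa using hy⟩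
  have t1 : Tri (T : F) a ((1 - T - a + s) / 2) ((1 - T - a - s) / 2) :=
    ⟨by ring, by linear_combination (-1 / 4 : F) * hs, by
      linear_combination (-a / 4) * hs + h1⟩
  generalize (1 - T - a + s) / 2 = b at t1
  generalize (1 - T - a - s) / 2 = e at t1
  obtain ⟨t1, t2, t3⟩ := t1
  refine ⟨![⟨a, int a h1⟩, ⟨b, int b ?_⟩, ⟨e, int e ?_⟩], RingOfIntegers.ext ?_,
    RingOfIntegers.ext ?_, RingOfIntegers.ext ?_⟩
  · linear_combination b ^ 2 * t1 - b * t2 + t3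
  · linear_combination e ^ 2 * t1 - e * t2 + t3
  · simpa using t1
  · simpa using t2
  · simpa using t3

/-- the count -/
def CNT_st : Prop := ∀ δ ε : ℝ, 0 < δ → 0 < ε → ∀ᶠ M : ℕ in atTop, ∀ G : ℕ → ℕ → Prop,
  (∀ (T : ℕ) (a b e : Zb), Tri (T : Zb) a b e →
    ∃ B : ℕ, ∀ p : ℕ, p.Prime → B < p → ¬ Bad p T a b → G T p) → ∀ᶠ x : ℕ in atTop,
    (Set.ncard {T : ℕ | 1 ≤ T ∧ T ≤ M ∧
      (Set.ncard {p : ℕ | p ≤ x ∧ G T p} : ℝ) < (1 - δ) * x / Real.log x} : ℝ) ≤ ε * M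

theorem CNT_pf (hFEW : FEW_st) (hDNS : DNS_st) : CNT_st := by
  intro δ ε hδ hε
  choose a ha using roots_RTS
  filter_upwards [hDNS _ (hFEW a ha) δ ε hδ hε] with M hM G hG
  choose B hB using fun T => hG T _ _ _ (ha T)
  filter_upwards [hM B] with x hx
  refine le_trans (Nat.cast_le.2 (Set.ncard_le_ncard ?_ ?_)) hx
  swap
  · exact (Set.finite_le_nat M).subset fun T hT => hT.2.1
  refine fun T hT => ⟨hT.1, hT.2.1, lt_of_le_of_lt (Nat.cast_le.2 (Set.ncard_le_ncard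
    (fun p hp => ?_) ((Set.finite_le_nat x).subset fun p hp => hp.1))) hT.2.2⟩
  exact ⟨hp.1, hB T p hp.2.1 hp.2.2.1 hp.2.2.2⟩

end Pool.Agent.MP_3e91a1_nt.TR
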