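import Pool.Agent.MP_3e91a1_nt.TR.St1

/-! The size of the entries of the determinant. -/

set_option autoImplicit false

open Finset Filter PowerSeries NumberField

noncomputable section

namespace Pool.Agent.MP_3e91a1_nt.TR

theorem dsc_ne_SIZ (c t : ℕ) : dsc ((c : ℂ) * t) ≠ 0 := by
  intro h
  have h1 : ((((c : ℤ) * t) ^ 2 + 3 * ((c : ℤ) * t) - 1) ^ 2 - 32 : ℤ) = 0 := by
    have : (((((c : ℤ) * t) ^ 2 + 3 * ((c : ℤ) * t) - 1) ^ 2 - 32 : ℤ) : ℂ) = 0 := by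
      rw [← h]
      unfold dsc
      push_cast
      ring
    exact_mod_cast this
  generalize ((c : ℤ) * t) ^ 2 + 3 * ((c : ℤ) * t) - 1 = y at h1
  have h2 : y ≤ 5 := by nlinarith
  have h3 : -5 ≤ y := by nlinarith
  interval_cases y <;> omega

theorem dsc_le_SIZ (B : ℝ) (T : ℂ) (hB : 2 ≤ B) (hT : ‖T‖ ≤ B ^ 2) : ‖dsc T‖ ≤ B ^ 13 := by
  have h0 : 0 ≤ ‖T‖ := norm_nonneg T
  have hB2 : 4 ≤ B ^ 2 := by nlinarith
  have h1 : ‖T ^ 2 + 3 * T - 1‖ ≤ B ^ 6 := by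
    have e1 : ‖T ^ 2 + 3 * T - 1‖ ≤ ‖T ^ 2 + 3 * T‖ + ‖(1 : ℂ)‖ := norm_sub_le _ _
    have e2 : ‖T ^ 2 + 3 * T‖ ≤ ‖T ^ 2‖ + ‖3 * T‖ := norm_add_le _ _
    have e3 : ‖T ^ 2‖ = ‖T‖ ^ 2 := norm_pow _ _
    have e4 : ‖3 * T‖ = 3 * ‖T‖ := by rw [norm_mul]; simp
    have e5 : ‖T‖ ^ 2 ≤ (B ^ 2) ^ 2 := pow_le_pow_left₀ h0 hT 2
    have e6 : B ^ 6 = B ^ 2 * (B ^ 2) ^ 2 := by ring
    rw [norm_one] at e1
    generalize B ^ 2 = u at *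
    have e7 : 4 * u ^ 2 ≤ u * u ^ 2 := by nlinarith [sq_nonneg u]
    have e8 : 4 * u ≤ u ^ 2 := by nlinarith
    rw [e6]
    nlinarith
  have h2 : ‖dsc T‖ ≤ ‖(T ^ 2 + 3 * T - 1) ^ 2‖ + ‖(32 : ℂ)‖ := norm_sub_le _ _
  have h3 : ‖(T ^ 2 + 3 * T - 1) ^ 2‖ ≤ (B ^ 6) ^ 2 := by
    rw [norm_pow]
    exact pow_le_pow_left₀ (norm_nonneg _) h1 2
  have h4 : ‖(32 : ℂ)‖ = 32 := by simp
  have h5 : (2 : ℝ) ^ 12 ≤ B ^ 12 := pow_le_pow_left₀ (by norm_num) hB 12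
  have h6 : (B ^ 6) ^ 2 = B ^ 12 := by ring
  have h7 : B ^ 13 = B * B ^ 12 := by ring
  have h8 : 2 * B ^ 12 ≤ B * B ^ 12 := mul_le_mul_of_nonneg_right hB (by positivity)
  norm_num at h5
  linarith

theorem Tri_swap_SIZ {S : Type} [CommRing S] {T a b e : S} (h : Tri T a b e) :
    Tri T b a e ∧ Tri T e a b := by
  obtain ⟨h1, h2, h3⟩ := h
  refine ⟨⟨?_, ?_, ?_⟩, ⟨?_, ?_, ?_⟩⟩
  · linear_combination h1
  · linear_combination h2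
  · linear_combination h3
  · linear_combination h1
  · linear_combination h2
  · linear_combination h3

theorem roots_SIZ (E : ℕ)
    (hE : ∀ (B : ℝ) (T μ : ℂ) (A A' A'' : ℂ⟦X⟧), 2 ≤ B → ‖T‖ ≤ B → ‖μ‖ ≤ B →
      dsc T ≠ 0 → Tri (C T + C (dsc T ^ 2 * μ) * X) A A' A'' →
      ∀ k, ‖coeff k A‖ ≤ (B ^ E) ^ (k + 1))
    (B : ℝ) (c t : ℕ) (d : ℂ) (hB : 2 ≤ B) (hc : (c : ℝ) ≤ B) (ht : (t : ℝ) ≤ B)
    (hd : ‖d‖ ≤ B ^ 13) (τ A A' A'' : ℂ⟦X⟧)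
    (hτ : τ = C (t : ℂ) + C ((dsc (c * t : ℂ) * d) ^ 2) * X) (h : Tri (c * τ) A A' A'') (k : ℕ) :
    ‖coeff k A‖ ≤ ((B ^ 52) ^ E) ^ (k + 1) := by
  have hB1 : 1 ≤ B := by linarith
  have hc0 : (0 : ℝ) ≤ c := Nat.cast_nonneg c
  have ht0 : (0 : ℝ) ≤ t := Nat.cast_nonneg t
  have e1 : (c : ℂ⟦X⟧) * τ =
      C ((c : ℂ) * t) + C (dsc ((c : ℂ) * t) ^ 2 * ((c : ℂ) * d ^ 2)) * X := by
    rw [hτ]
    simp only [map_mul, map_pow, map_natCast]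
    ring
  rw [e1] at h
  refine hE (B ^ 52) ((c : ℂ) * t) ((c : ℂ) * d ^ 2) A A' A'' ?_ ?_ ?_ (dsc_ne_SIZ c t) h k
  · exact hB.trans (le_self_pow₀ hB1 (by norm_num))
  · rw [norm_mul, Complex.norm_natCast, Complex.norm_natCast]
    calc (c : ℝ) * t ≤ B * B := mul_le_mul hc ht ht0 (by linarith)
      _ = B ^ 2 := by ring
      _ ≤ B ^ 52 := pow_le_pow_right₀ hB1 (by norm_num)
  · rw [norm_mul, Complex.norm_natCast, norm_pow]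
    calc (c : ℝ) * ‖d‖ ^ 2 ≤ B * (B ^ 13) ^ 2 :=
          mul_le_mul hc (pow_le_pow_left₀ (norm_nonneg _) hd 2) (by positivity) (by linarith)
      _ = B ^ 27 := by ring
      _ ≤ B ^ 52 := pow_le_pow_right₀ hB1 (by norm_num)

theorem SIZ_pf (hSZA : SZA_st) (hSZB : SZB_st) : SIZ_st := by
  obtain ⟨E₁, h₁⟩ := hSZA
  obtain ⟨E₂, h₂⟩ := hSZB
  refine ⟨52 * (E₁ + 1) * E₂, ?_⟩
  intro B c c' t D K L n e i m β g hB hc hc' ht hg hD hL he hi hβ hm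
  have hB' : (2 : ℝ) ≤ B := by exact_mod_cast hB
  have hB1 : (1 : ℝ) ≤ B := by linarith
  have hcR : (c : ℝ) ≤ B := by exact_mod_cast hc
  have hcR' : (c' : ℝ) ≤ B := by exact_mod_cast hc'
  have htR : (t : ℝ) ≤ B := by exact_mod_cast ht
  have hd : ∀ a : ℕ, (a : ℝ) ≤ B → ‖dsc ((a : ℂ) * t)‖ ≤ (B : ℝ) ^ 13 := by
    intro a ha
    refine dsc_le_SIZ _ _ hB' ?_
    rw [norm_mul, Complex.norm_natCast, Complex.norm_natCast, pow_two]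
    exact mul_le_mul ha htR (Nat.cast_nonneg t) (by linarith)
  have h52 : (1 : ℝ) ≤ (B : ℝ) ^ 52 := one_le_pow₀ hB1
  have hBH : (B : ℝ) ^ 52 ≤ ((B : ℝ) ^ 52) ^ (E₁ + 1) := le_self_pow₀ h52 (by omega)
  have hB52 : (B : ℝ) ≤ (B : ℝ) ^ 52 := le_self_pow₀ hB1 (by norm_num)
  have hH1 : (1 : ℝ) ≤ ((B : ℝ) ^ 52) ^ (E₁ + 1) := one_le_pow₀ h52
  have hup : ∀ (k : ℕ) (x : ℝ), x ≤ (((B : ℝ) ^ 52) ^ E₁) ^ (k + 1) →
      x ≤ (((B : ℝ) ^ 52) ^ (E₁ + 1)) ^ (k + 1) := by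
    intro k x hx
    exact hx.trans (pow_le_pow_left₀ (by positivity) (pow_le_pow_right₀ h52 (by omega)) _)
  have hg' : g 0 = C (t : ℂ) + C ((dsc (c' * t : ℂ) * dsc (c * t : ℂ)) ^ 2) * X := by
    rw [hg, mul_comm (dsc (c * t : ℂ))]
  have hA := fun A A' A'' h k =>
    hup k _ (roots_SIZ E₁ h₁ B c t _ hB' hcR htR (hd c' hcR') (g 0) A A' A'' hg h k)
  have hA' := fun A A' A'' h k =>
    hup k _ (roots_SIZ E₁ h₁ B c' t _ hB' hcR' htR (hd c hcR) (g 0) A A' A'' hg' h k)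
  have h0 : ∀ k, ‖coeff k (g 0)‖ ≤ (((B : ℝ) ^ 52) ^ (E₁ + 1)) ^ (k + 1) := by
    intro k
    have hk : ((B : ℝ) ^ 52) ≤ (((B : ℝ) ^ 52) ^ (E₁ + 1)) ^ (k + 1) :=
      hBH.trans (le_self_pow₀ hH1 (by omega))
    refine le_trans ?_ hk
    rw [hg, map_add, coeff_C, coeff_C_mul, coeff_X]
    by_cases k0 : k = 0
    · subst k0
      simpa using htR.trans hB52
    · by_cases k1 : k = 1
      · subst k1
        rw [if_neg k0, if_pos rfl, zero_add, mul_one, norm_pow, norm_mul]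
        calc (‖dsc ((c : ℂ) * t)‖ * ‖dsc ((c' : ℂ) * t)‖) ^ 2 ≤ ((B : ℝ) ^ 13 * (B : ℝ) ^ 13) ^ 2 :=
              pow_le_pow_left₀ (by positivity)
                (mul_le_mul (hd c hcR) (hd c' hcR') (norm_nonneg _) (by positivity)) 2
          _ = (B : ℝ) ^ 52 := by ring
      · rw [if_neg k0, if_neg k1, mul_zero, add_zero, norm_zero]
        positivity
  have hall : ∀ (j : Fin 7) (k : ℕ),
      ‖coeff k (g j)‖ ≤ (((B : ℝ) ^ 52) ^ (E₁ + 1)) ^ (k + 1) := by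
    intro j k
    fin_cases j
    · exact h0 k
    · exact hA _ _ _ hD.1 k
    · exact hA _ _ _ (Tri_swap_SIZ hD.1).1 k
    · exact hA _ _ _ (Tri_swap_SIZ hD.1).2 k
    · exact hA' _ _ _ hD.2 k
    · exact hA' _ _ _ (Tri_swap_SIZ hD.2).1 k
    · exact hA' _ _ _ (Tri_swap_SIZ hD.2).2 k
  have key := h₂ (((B : ℝ) ^ 52) ^ (E₁ + 1)) c c' D K L n e i m β (t : ℂ) g
    ((hB'.trans hB52).trans hBH) ((hcR.trans hB52).trans hBH) ((hcR'.trans hB52).trans hBH)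
    (by rw [Complex.norm_natCast]; exact (htR.trans hB52).trans hBH) hall hL he hi hβ hm
  rw [pow_mul, pow_mul]
  exact key

end Pool.Agent.MP_3e91a1_nt.TR
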