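import Pool.Agent.MP_3e91a1_nt.TR.St1

/-! A small generating set for a product of powers of modules. -/

set_option autoImplicit false

open Finset
open scoped Pointwise

noncomputable section

namespace Pool.Agent.MP_3e91a1_nt.TR

theorem pow_le_SPN {S : Type} [CommRing S] (G : Set S) (P : ℕ → Set S) (h0 : 1 ∈ P 0)
    (h : ∀ n, ∀ y ∈ P n, ∀ x ∈ G, y * x ∈ P (n + 1)) (n : ℕ) :
    Submodule.span ℤ G ^ n ≤ Submodule.span ℤ (P n) := by
  induction n with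
  | zero =>
    rw [pow_zero, Submodule.one_eq_span]
    exact Submodule.span_mono (Set.singleton_subset_iff.2 h0)
  | succ n ih =>
    rw [pow_succ]
    refine (mul_le_mul_left ih _).trans ?_
    rw [Submodule.span_mul_span]
    refine Submodule.span_mono ?_
    rintro _ ⟨y, hy, x, hx, rfl⟩
    exact h n y hy x hx

/-- monomials without the product of the first and the last variable -/
def Q_SPN {S : Type} [CommRing S] (x y z w : S) (n : ℕ) : Set S :=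
  {q | ∃ a b c, a ≤ n ∧ b ≤ n ∧ c ≤ n ∧ (q = x ^ a * y ^ b * z ^ c ∨ q = w ^ a * y ^ b * z ^ c)}

theorem Q_symm_SPN {S : Type} [CommRing S] {x y z w q : S} {n : ℕ} (h : q ∈ Q_SPN x y z w n) :
    q ∈ Q_SPN w y z x n := by
  obtain ⟨a, b, c, h1, h2, h3, h⟩ := h
  exact ⟨a, b, c, h1, h2, h3, h.symm⟩

theorem half_SPN {S : Type} [CommRing S] {x y z w : S} (e : x * w = z * y) {n a b c : ℕ}
    (h1 : a ≤ n) (h2 : b ≤ n) (h3 : c ≤ n) (t : S) (ht : t = 1 ∨ t = x ∨ t = y ∨ t = z ∨ t = w) :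
    x ^ a * y ^ b * z ^ c * t ∈ Q_SPN x y z w (n + 1) := by
  rcases ht with h | h | h | h | h <;> rw [h]
  · exact ⟨a, b, c, by omega, by omega, by omega, Or.inl (by ring)⟩
  · exact ⟨a + 1, b, c, by omega, by omega, by omega, Or.inl (by ring)⟩
  · exact ⟨a, b + 1, c, by omega, by omega, by omega, Or.inl (by ring)⟩
  · exact ⟨a, b, c + 1, by omega, by omega, by omega, Or.inl (by ring)⟩
  · rcases a with _ | a
    · exact ⟨1, b, c, by omega, by omega, by omega, Or.inr (by ring)⟩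
    · exact ⟨a, b + 1, c + 1, by omega, by omega, by omega,
        Or.inl (by linear_combination x ^ a * y ^ b * z ^ c * e)⟩

theorem step_SPN {S : Type} [CommRing S] {x y z w q : S} (e : x * w = z * y) {n : ℕ}
    (h : q ∈ Q_SPN x y z w n) (t : S) (ht : t = 1 ∨ t = x ∨ t = y ∨ t = z ∨ t = w) :
    q * t ∈ Q_SPN x y z w (n + 1) := by
  obtain ⟨a, b, c, h1, h2, h3, rfl | rfl⟩ := h
  · exact half_SPN e h1 h2 h3 t ht
  · exact Q_symm_SPN (half_SPN (by rw [mul_comm, e]) h1 h2 h3 t (by tauto))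

theorem fin_SPN {S : Type} [CommRing S] (x y z w : S) (n : ℕ) :
    ∃ s : Finset S, s.card ≤ 2 * (n + 1) ^ 3 ∧ Q_SPN x y z w n ⊆ s := by
  classical
  have c : ∀ u : S, ((range (n + 1) ×ˢ range (n + 1) ×ˢ range (n + 1)).image
      fun t : ℕ × ℕ × ℕ => u ^ t.1 * y ^ t.2.1 * z ^ t.2.2).card ≤ (n + 1) ^ 3 := fun u => by
    refine card_image_le.trans (le_of_eq ?_)
    rw [card_product, card_product, card_range]
    ring
  refine ⟨_ ∪ _, (card_union_le _ _).trans ((add_le_add (c x) (c w)).trans_eq (two_mul _).symm), ?_⟩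
  rintro q ⟨a, b, c, h1, h2, h3, h⟩
  have m : (a, b, c) ∈ range (n + 1) ×ˢ range (n + 1) ×ˢ range (n + 1) := by
    simp only [mem_product, mem_range]
    omega
  rw [mem_coe, mem_union]
  exact h.imp (fun h => mem_image.2 ⟨_, m, h.symm⟩) fun h => mem_image.2 ⟨_, m, h.symm⟩

theorem two_SPN {S : Type} [CommRing S] (N : ℕ) (h : Fin 9 → S) (e : h 1 * h 4 = h 3 * h 2)
    (e' : h 5 * h 8 = h 7 * h 6) : ∃ s : Finset S, s.card ≤ 4 * (N + 1) ^ 7 ∧
      Submodule.span ℤ (insert 1 (Set.range h)) ^ N ≤ Submodule.span ℤ (s : Set S) := by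
  classical
  obtain ⟨s₁, c₁, m₁⟩ := fin_SPN (h 1) (h 2) (h 3) (h 4) N
  obtain ⟨s₂, c₂, m₂⟩ := fin_SPN (h 5) (h 6) (h 7) (h 8) N
  refine ⟨(range (N + 1)).image (h 0 ^ ·) * s₁ * s₂, ?_, ?_⟩
  · refine card_mul_le.trans ((Nat.mul_le_mul (card_mul_le.trans (Nat.mul_le_mul
      (card_image_le.trans (card_range _).le) c₁)) c₂).trans_eq (by ring))
  refine (pow_le_SPN _ (fun n => {p | ∃ i ≤ n, ∃ q ∈ Q_SPN (h 1) (h 2) (h 3) (h 4) n,
    ∃ q' ∈ Q_SPN (h 5) (h 6) (h 7) (h 8) n, p = h 0 ^ i * q * q'}) ?_ ?_ N).trans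
    (Submodule.span_mono ?_)
  · exact ⟨0, le_rfl, 1, ⟨0, 0, 0, le_rfl, le_rfl, le_rfl, Or.inl (by simp)⟩, 1,
      ⟨0, 0, 0, le_rfl, le_rfl, le_rfl, Or.inl (by simp)⟩, by simp⟩
  · rintro n _ ⟨i, hi, q, hq, q', hq', rfl⟩ x hx
    have a := step_SPN e hq
    have a' := step_SPN e' hq'
    have k : x = h 0 ∨ (x = 1 ∨ x = h 1 ∨ x = h 2 ∨ x = h 3 ∨ x = h 4) ∨
        (x = 1 ∨ x = h 5 ∨ x = h 6 ∨ x = h 7 ∨ x = h 8) := by
      rcases hx with rfl | ⟨j, rfl⟩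
      · simp
      · fin_cases j <;> simp
    rcases k with k | k | k
    · exact ⟨i + 1, by omega, _, a 1 (Or.inl rfl), _, a' 1 (Or.inl rfl), by rw [k]; ring⟩
    · exact ⟨i, by omega, _, a x k, _, a' 1 (Or.inl rfl), by ring⟩
    · exact ⟨i, by omega, _, a 1 (Or.inl rfl), _, a' x k, by ring⟩
  · rintro _ ⟨i, hi, q, hq, q', hq', rfl⟩
    exact mem_coe.2 (mul_mem_mul (mul_mem_mul (mem_image.2 ⟨i, mem_range.2 (by omega), rfl⟩)
      (m₁ hq)) (m₂ hq'))

theorem one_SPN (hRED : RED_st) {S : Type} [CommRing S] (c c' B : ℕ) (g : Fin 7 → S)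
    (hg : Dat c c' g) : ∃ s : Finset S, s.card ≤ 729 * (B + 1) ∧
      Submodule.span ℤ (insert 1 (Set.range g)) ^ B ≤ Submodule.span ℤ (s : Set S) := by
  classical
  refine ⟨univ.image fun r : Fin (B + 1) × (Fin 6 → Fin 3) =>
    g 0 ^ (r.1 : ℕ) * ∏ i : Fin 6, g i.succ ^ (r.2 i : ℕ), ?_, ?_⟩
  · refine card_image_le.trans (le_of_eq ?_)
    simp [mul_comm]
  refine (pow_le_SPN _ (fun n => {p | ∃ α : Fin 7 → ℕ, ∑ i, α i ≤ n ∧ p = ∏ i, g i ^ α i})
    ⟨0, by simp, by simp⟩ ?_ B).trans (Submodule.span_le.2 ?_)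
  · rintro n _ ⟨α, hα, rfl⟩ x (rfl | ⟨j, rfl⟩)
    · exact ⟨α, by omega, mul_one _⟩
    · refine ⟨α + Pi.single j 1, ?_, ?_⟩
      · simp only [Pi.add_apply, sum_add_distrib, sum_pi_single', mem_univ, if_true]
        omega
      · simp only [Pi.add_apply, pow_add, prod_mul_distrib]
        congr 1
        rw [prod_eq_single j (fun i _ hi => by simp [hi]) (by simp)]
        simp
  · rintro _ ⟨α, hα, rfl⟩
    obtain ⟨u, hu⟩ := hRED c c' B α hα
    rw [hu S g hg]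
    refine Submodule.sum_mem _ fun r _ => ?_
    rw [← zsmul_eq_mul]
    exact Submodule.smul_mem _ _ (Submodule.subset_span
      (mem_coe.2 (mem_image.2 ⟨r, mem_univ _, rfl⟩)))

theorem SPN_pf (hRED : RED_st) : SPN_st := by
  classical
  intro S _ c c' B N g h hg e e'
  obtain ⟨s, c₁, m₁⟩ := one_SPN hRED c c' B g hg
  obtain ⟨t, c₂, m₂⟩ := two_SPN N h e e'
  refine ⟨s * t, card_mul_le.trans ((Nat.mul_le_mul c₁ c₂).trans_eq (by ring)), ?_⟩
  rw [coe_mul, ← Submodule.span_mul_span]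
  exact mul_le_mul' m₁ m₂

end Pool.Agent.MP_3e91a1_nt.TR
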