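import Pool.Agent.MP_3e91a1_nt.CC.DIV
import Pool.Agent.MP_3e91a1_nt.TR.CNG
import Pool.Agent.MP_3e91a1_nt.TR.CNJ
import Pool.Agent.MP_3e91a1_nt.TR.COR
import Pool.Agent.MP_3e91a1_nt.TR.DET
import Pool.Agent.MP_3e91a1_nt.TR.DNA
import Pool.Agent.MP_3e91a1_nt.TR.DNS
import Pool.Agent.MP_3e91a1_nt.TR.FEW
import Pool.Agent.MP_3e91a1_nt.TR.GAL
import Pool.Agent.MP_3e91a1_nt.TR.HEN
import Pool.Agent.MP_3e91a1_nt.TR.INC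
import Pool.Agent.MP_3e91a1_nt.TR.IND
import Pool.Agent.MP_3e91a1_nt.TR.INF
import Pool.Agent.MP_3e91a1_nt.TR.INT
import Pool.Agent.MP_3e91a1_nt.TR.INV
import Pool.Agent.MP_3e91a1_nt.TR.KER
import Pool.Agent.MP_3e91a1_nt.TR.LOG
import Pool.Agent.MP_3e91a1_nt.TR.NRM
import Pool.Agent.MP_3e91a1_nt.TR.NSQ
import Pool.Agent.MP_3e91a1_nt.TR.OST
import Pool.Agent.MP_3e91a1_nt.TR.RED
import Pool.Agent.MP_3e91a1_nt.TR.RES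
import Pool.Agent.MP_3e91a1_nt.TR.SIZ
import Pool.Agent.MP_3e91a1_nt.TR.SOL
import Pool.Agent.MP_3e91a1_nt.TR.SPN
import Pool.Agent.MP_3e91a1_nt.TR.SZA
import Pool.Agent.MP_3e91a1_nt.TR.SZB
import Pool.Agent.MP_3e91a1_nt.TR.TUR
import Pool.Agent.MP_3e91a1_nt.TR.ZER
import Pool.Agent.MP_3e91a1_nt.TR.Rts

set_option autoImplicit false

open Filter

namespace Pool.Agent.MP_3e91a1_nt.TR

theorem zer_ok : ZER_st := ZER_pf INT_pf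
  (IND_pf INT_pf OST_pf (RES_pf INT_pf INF_pf (KER_pf GAL_pf NSQ_pf))) INV_pf (NRM_pf RED_pf)

theorem few_ok : FEW_st := FEW_pf (COR_pf (DET_pf zer_ok (CNG_pf (SOL_pf LOG_pf) (SPN_pf RED_pf))
  HEN_pf (SIZ_pf SZA_pf SZB_pf) CNJ_pf CC.DIV_pf))

theorem cnt_ok : CNT_st := CNT_pf few_ok (DNS_pf (DNA_pf TUR_pf INC_pf))

end Pool.Agent.MP_3e91a1_nt.TR
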