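import Pool.Agent.MP_3e91a1_nt.TR.St3

set_option autoImplicit false

open NumberField IsDedekindDomain Module Finset

namespace Pool.Agent.MP_3e91a1_nt.TR

open MP_e23604_nt MP_e23604_nt.B MP_e23604_nt.R MP_f3cd89_nt CC

theorem prim_GDK (K : IntermediateField ℚ Qb) [NumberField K] :
    ∃ w : K, (∀ x, x ∈ K ↔ Fix (MulAction.stabilizer GQ (w : Qb)) x) ∧
      K.fixingSubgroup = MulAction.stabilizer GQ (w : Qb) := by
  obtain ⟨w, hw⟩ := Field.exists_primitive_element ℚ K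
  have h : IntermediateField.adjoin ℚ {(w : Qb)} = K := by
    rw [← IntermediateField.lift_adjoin_simple]
    exact (congrArg IntermediateField.lift hw).trans (IntermediateField.lift_top _ _)
  have h1 : ∀ x, x ∈ K ↔ Fix (MulAction.stabilizer GQ (w : Qb)) x := fun x => by
    rw [← adj_WBS1, h]
  refine ⟨w, h1, Subgroup.ext fun g => ?_⟩
  rw [IntermediateField.mem_fixingSubgroup_iff]
  exact ⟨fun h => h w w.2, fun h x hx => (h1 x).1 hx g h⟩

theorem rank_GDK (K : Type) [Field K] [NumberField K] (h : Units.rank K ≤ 2) :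
    finrank ℚ K ≤ InfinitePlace.nrComplexPlaces K + 2 + 1 := by
  have h1 := InfinitePlace.card_add_two_mul_card_eq_rank K
  have h2 := InfinitePlace.card_eq_nrRealPlaces_add_nrComplexPlaces K
  rw [Units.rank] at h
  omega

theorem GDK_pf (hRES : MP_3e91a1_nt.RES_st) (hTWR : TWR_st) (hTRF : TRF_st) (hDEC : DEC_st)
    (hETK : ETK_st) (hTHK : THK_st) (hRFK : RFK_st) : GDK_st := by
  intro K _ hrk
  obtain ⟨w', hK, fx⟩ := prim_GDK K
  obtain ⟨B₀, hB₀⟩ := hDEC K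
  rw [fx] at hB₀ ⊢
  set w : Qb := (w' : Qb) with hw
  obtain ⟨N₀, hN₀, hf⟩ := exists_ON_fix {w}
  have i0 : N₀.index ≠ 0 := have := hN₀.finite; Subgroup.index_ne_zero_of_finite
  refine ⟨B₀ + N₀.index + classNumber K + finrank ℚ K + 3,
    fun p r E _ ζ u u' hB hE hun hind hζ hr => ?_⟩
  have hp : p.Prime := Fact.out
  obtain ⟨b1, b2, b3, b4, b5⟩ : B₀ < p ∧ N₀.index < p ∧ classNumber K < p ∧
      finrank ℚ K < p ∧ 3 < p := by omega
  clear hB
  have b6 : 2 < p := by omega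
  have r1 : (r : ZMod p) ≠ 1 := hr.ne_one (by omega)
  have hr0 : ¬ p ∣ r := fun c => by
    have h1 := hr.pow_eq_one
    rw [(ZMod.natCast_eq_zero_iff r p).2 c, zero_pow (by omega)] at h1
    exact zero_ne_one h1
  refine ⟨stabilizer_isOpen_of_isIntegral w, fun γ => ?_, fun δ hδ hδζ L _ δ' hL hδ' => ?_⟩
  · obtain ⟨τ, h1, h2⟩ := omega_surj (nv_na p γ) hp (nv_lt p γ) hζ hr0
    exact ⟨τ, ⟨Ine_le p γ h1, hB₀ p _ τ hp b1 (nv_na p γ) (nv_lt p γ) h1⟩, h2⟩
  intro f hf0 _ hfe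
  have : NeZero p := ⟨hp.ne_zero⟩
  have ex : ∀ g : GQ, ∃ i, i < p ∧ ζ ^ i = g ζ := fun g =>
    hζ.eq_pow_of_pow_eq_one (by rw [← map_pow, hζ.pow_eq_one, map_one])
  set Z := MulAction.stabilizer GQ ζ with hZ
  set U := MulAction.stabilizer GQ w with hU
  have oZ : ON Z := ⟨⟨fun n hn g => by
    obtain ⟨i, -, hi⟩ := ex g⁻¹
    change g (n (g⁻¹ ζ)) = ζ
    rw [← hi, map_pow, show n ζ = ζ from hn, hi, ← AlgEquiv.mul_apply, mul_inv_cancel,
      AlgEquiv.one_apply]⟩, stabilizer_isOpen_of_isIntegral ζ⟩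
  have iZ : ¬ p ∣ Z.index := by
    have h1 : MulAction.orbit GQ ζ ⊆ (primitiveRoots p Qb : Set Qb) := by
      rintro _ ⟨g, rfl⟩
      exact (mem_primitiveRoots hp.pos).2 (hζ.map_of_injective g.injective)
    have h2 := Set.ncard_le_ncard h1 (Finset.finite_toSet _)
    rw [Set.ncard_coe_finset, hζ.card_primitiveRoots, Nat.totient_prime hp,
      ← MulAction.index_stabilizer, ← hZ] at h2
    have := oZ.finite
    exact fun c => absurd (Nat.le_of_dvd (Nat.pos_of_ne_zero Subgroup.index_ne_zero_of_finite) c)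
      (by omega)
  have oN := hN₀.inf oZ
  have nd : ∀ W : Subgroup GQ, ¬ p ∣ (N₀ ⊓ Z).relIndex W := fun W c => by
    have := hN₀.1
    have := oZ.1
    rw [← Subgroup.relIndex_inf_mul_relIndex] at c
    rcases (Nat.Prime.dvd_mul hp).1 c with c | c
    · exact absurd (Nat.le_of_dvd (by omega) (c.trans (N₀.relIndex_dvd_index_of_normal _)))
        (by omega)
    · exact iZ (c.trans (Z.relIndex_dvd_index_of_normal _))
  have le : N₀ ⊓ Z ≤ U ⊓ Z := inf_le_inf_right _ fun g hg => hf w (mem_singleton_self w) g hg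
  obtain ⟨M, _, _, hM, hlift⟩ := gal_GD hRES oN
  obtain ⟨_, alL, _, fL, -⟩ := hTWR _ _ L M oN.2 le (fun g _ n hn => oN.1.conj_mem n hn g) hL hM
  obtain ⟨_, alK, _, fK, fK', lK, rK⟩ := hTWR _ U K M oN.2 (le.trans inf_le_left)
    (fun g _ n hn => oN.1.conj_mem n hn g) hK hM
  obtain ⟨F, hF, hF0, hFe⟩ := hTRF p L M f (fL ▸ nd _) hf0
  let z : M := ⟨ζ, (hM ζ).2 fun g hg => hg.2⟩
  have hz : IsPrimitiveRoot z p := IsPrimitiveRoot.coe_submonoidClass_iff.1 hζ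
  have ex' : ∀ g : M ≃ₐ[K] M, ∃ i, i < p ∧ z ^ i = g z := fun g =>
    hz.eq_pow_of_pow_eq_one (by rw [← map_pow, hz.pow_eq_one, map_one])
  choose ω _ hω using ex'
  have dM : ¬ p ∣ finrank ℚ M := fun c => by
    rw [← fK', fK] at c
    exact ((Nat.Prime.dvd_mul hp).1 c).elim
      (fun c => absurd (Nat.le_of_dvd finrank_pos c) b4.not_ge) (nd _)
  obtain ⟨η, e1, e2⟩ := hETK p K M z ω hp b6 hz (fun g => (hω g).symm) (by
    obtain ⟨τ, hτ⟩ := lK δ hδ
    refine ⟨τ, fun c => ?_⟩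
    have h1 : ζ ^ r = ζ ^ 1 := by rw [← hδζ, pow_one, ← hτ z, c]
    rw [(hζ.isOfFinOrder hp.ne_zero).pow_eq_pow_iff_modEq, ← hζ.eq_orderOf,
      ← ZMod.natCast_eq_natCast_iff, Nat.cast_one] at h1
    exact r1 h1) dM b4
  have dep := hTHK p E _ K M z ω u u' hp b6 hz (fun g => (hω g).symm) dM (rank_GDK K hrk)
    (fun c => absurd (Nat.le_of_dvd (classNumber_pos K) c) b3.not_ge) hE hun hind
  refine hF0 (hRFK p _ K M z ω η F hp hz (fun g => (hω g).symm)
    (by rw [IsGalois.card_aut_eq_finrank, fK]; exact nd _) e1 e2 dep hF fun τ v => ?_)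
  obtain ⟨τ', hτ⟩ := rK τ
  obtain ⟨g, hg⟩ := hlift τ'
  have g1 : g w = w := by rw [← show (algebraMap K M w' : Qb) = w from alK w', ← hg, hτ, τ.commutes]
  have g2 : g ζ = ζ ^ ω τ := by
    rw [← show (z : Qb) = ζ from rfl, ← hg, hτ, ← hω]
    rfl
  obtain ⟨i, hi, hi'⟩ := log_WBS1 hζ hr hδζ g2
  have e : gact τ v = gact τ' v := congrArg (fun s => act s v) (RingEquiv.ext fun x => (hτ x).symm)
  rw [e, ← hi]
  refine hFe τ' (δ' ^ i) _ (fun x => Subtype.ext ?_) (eig_WBS1 hfe i) v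
  have h1 := (hL x).1 x.2 _ (mem_WBS1 (g := g) (h := δ ^ i) (g1.trans (pow_mem hδ i).symm) hi'.symm)
  rw [hg, alL, alL, ind_pow_WBS1 hδ' i]
  conv_rhs => rw [← h1, ← AlgEquiv.mul_apply, mul_inv_cancel_left]

end Pool.Agent.MP_3e91a1_nt.TR
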