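import Pool.Agent.MP_3e91a1_nt.TR.St3

/-! The result for one prime. -/

set_option autoImplicit false

open NumberField IsDedekindDomain Module Finset

namespace Pool.Agent.MP_3e91a1_nt.TR

open MP_e23604_nt MP_e23604_nt.B MP_e23604_nt.R MP_f3cd89_nt

theorem int_ONK (T : ℕ) (k : IntermediateField ℚ Qb) (w : Qb) (hk : w ∈ k)
    (hw : w * (w - 1) * (w + T) = 1) : ∃ u : 𝓞 k, u * (u - 1) * (u + T) = 1 := by
  have e : (⟨w, hk⟩ : k) * (⟨w, hk⟩ - 1) * (⟨w, hk⟩ + T) = 1 := Subtype.ext (by simpa using hw)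
  have hi : IsIntegral ℤ (⟨w, hk⟩ : k) := by
    refine ⟨Polynomial.X * (Polynomial.X - Polynomial.C 1) *
      (Polynomial.X + Polynomial.C (T : ℤ)) - 1, ?_, ?_⟩
    · unfold Polynomial.Monic
      monicity!
    · rw [← Polynomial.aeval_def]
      simp only [map_sub, map_mul, map_add, Polynomial.aeval_X, map_one, map_natCast]
      rw [e, sub_self]
  refine ⟨⟨_, hi⟩, RingOfIntegers.ext ?_⟩
  simpa using e

theorem cop_ONK {R : Type} [CommRing R] (u : Rˣ) (y : R) : IsCoprime (u : R) y :=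
  ⟨↑u⁻¹, 0, by simp⟩

theorem ONK_pf (hURM : URM_st) (hBAD : BAD_st) (hLEO : LEO_st) (hGDK : GDK_st) (hGOOD : GOOD_st)
    (hTOP : TOP_st) (hDEV : DEV_st) (hMEM : MEM_st) : ONK_st := by
  intro T k _ w a b e hk hwk hw hT
  obtain ⟨u, hu⟩ := int_ONK T k w hwk hw
  let u₁ : (𝓞 k)ˣ := Units.mkOfMulEqOne u ((u - 1) * (u + T)) (by rw [← mul_assoc, hu])
  let u₂ : (𝓞 k)ˣ := Units.mkOfMulEqOne (u - 1) (u * (u + T)) (by linear_combination hu)
  obtain ⟨B₁, h₁⟩ := hBAD T k u a b e hu hT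
  obtain ⟨B₂, h₂⟩ := hLEO k hk
  obtain ⟨B₃, h₃⟩ := hGDK k hk
  refine ⟨B₁ + B₂ + B₃ + (discr k).natAbs + 5, fun p hp hp5 hb => ?_⟩
  have hd : ¬ (p : ℤ) ∣ discr k := fun h => by
    have := Nat.le_of_dvd (Int.natAbs_pos.2 (discr_ne_zero k)) (Int.natCast_dvd.1 h)
    omega
  obtain ⟨-, E, hE, hE'⟩ := hURM p k hp.out hd
  have hI : Indp p E (u₁ : 𝓞 k) u₂ := by
    by_contra h
    exact hb (h₁ p E hp.out (by omega) hE (hE' _ (cop_ONK u₁ _)) (hE' _ (cop_ONK u₂ _)) h)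
  refine ⟨h₂ p E u₁ u₂ hp.out (by omega) hE hE' hI,
    fun K hP S κ F n ρ hS hpS hκ hsur hfin hρ hres => ?_⟩
  have : NeZero p := ⟨hp.out.ne_zero⟩
  obtain ⟨ζ, hζ⟩ := HasEnoughRootsOfUnity.exists_primitiveRoot Qb p
  obtain ⟨r', hr⟩ := HasEnoughRootsOfUnity.exists_primitiveRoot (ZMod p) (p - 1)
  obtain ⟨r, rfl⟩ := ZMod.natCast_zmod_surjective r'
  have r0 : (r : ZMod p) ≠ 0 := hr.ne_zero (by omega)
  have r1 : (r : ZMod p) ≠ 1 := hr.ne_one (by omega)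
  have := (hGOOD p ζ r 0 _ K hP).1
  have G0 : Good p ζ r r K.fixingSubgroup :=
    (hGOOD p ζ r _ _ K hP).2 (by omega) hζ hr r0 r1
      (h₃ p r E ζ u₁ u₂ (by omega) hE hE' hI hζ hr)
  obtain ⟨ω, hω, hH⟩ := hTOP p K S κ (by omega) hS hpS hκ hsur hfin
  choose e he hψ using hres.2
  have := (hMEM K S).1
  have : CompactSpace κ.ker :=
    isCompact_iff_compactSpace.1 (isClosed_singleton.preimage hκ : IsClosed (κ ⁻¹' {1})).isCompact
  refine hDEV p κ.ker F n (ρ.comp κ.ker.subtype) (fun i g => ω g ^ e i)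
    (hρ.comp continuous_subtype_val) (fun g => hres.1 g)
    (fun g i => norm_WONE _ _ _ (hψ i g _ (hω g))) fun i => ?_
  exact hH ζ r _ _ hζ hr (by rw [Set.mem_singleton_iff.1 (he i), pow_zero, mul_one]) r1 G0

end Pool.Agent.MP_3e91a1_nt.TR
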