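import Pool.Agent.MP_3e91a1_nt.All
import Pool.Agent.MP_3e91a1_nt.CC.DIV
import Pool.Agent.MP_3e91a1_nt.TR.Cnt
import Pool.Agent.MP_3e91a1_nt.TR.BAD
import Pool.Agent.MP_3e91a1_nt.TR.DEC
import Pool.Agent.MP_3e91a1_nt.TR.ETK
import Pool.Agent.MP_3e91a1_nt.TR.FRO
import Pool.Agent.MP_3e91a1_nt.TR.GDK
import Pool.Agent.MP_3e91a1_nt.TR.IDM
import Pool.Agent.MP_3e91a1_nt.TR.LEO
import Pool.Agent.MP_3e91a1_nt.TR.LNK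
import Pool.Agent.MP_3e91a1_nt.TR.ONK
import Pool.Agent.MP_3e91a1_nt.TR.RFK
import Pool.Agent.MP_3e91a1_nt.TR.THK
import Pool.Agent.MP_3e91a1_nt.TR.URM

set_option autoImplicit false

namespace Pool.Agent.MP_3e91a1_nt.TR

theorem one_ok : ONK_st := ONK_pf URM_pf (TR.BAD_pf URM_pf FRO_pf) LEO_pf
  (GDK_pf RES_ok TWR_ok TRF_ok DEC_pf (ETK_pf IDM_pf) (THK_pf LNK_pf) RFK_pf)
  GOOD_ok TOP_ok DEV_ok MEM_ok

end Pool.Agent.MP_3e91a1_nt.TR
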