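import Pool.Agent.MP_3e91a1_nt.TR.St2
import Pool.Agent.MP_3e91a1_nt.CC.LIN

/-! `k` characters of a monoid that factor through a small group and kill two independent
elements are dependent. -/

set_option autoImplicit false

open Finset

namespace Pool.Agent.MP_3e91a1_nt.TR

open CC

theorem ind_LNK {p : ℕ} [hp : Fact p.Prime] {V : Type} [AddCommGroup V] [Module (ZMod p) V]
    (v v' : V) (h : ∀ i j : ℕ, i • v + j • v' = 0 → p ∣ i ∧ p ∣ j) (b b' : ZMod p)
    (e : b • v + b' • v' = 0) : b = 0 ∧ b' = 0 := by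
  have h1 := h b.val b'.val (by
    rw [← Nat.cast_smul_eq_nsmul (ZMod p), ← Nat.cast_smul_eq_nsmul (ZMod p),
      ZMod.natCast_zmod_val, ZMod.natCast_zmod_val]
    exact e)
  constructor
  · rw [← ZMod.natCast_zmod_val b]
    exact (ZMod.natCast_eq_zero_iff _ _).2 h1.1
  · rw [← ZMod.natCast_zmod_val b']
    exact (ZMod.natCast_eq_zero_iff _ _).2 h1.2

theorem LNK_pf : LNK_st := by
  intro p k hp Y V _ _ _ lg φ u u' hV hpV hl hφ h0 hu hφu hφu'
  have p1 : p = p - 1 + 1 := (Nat.sub_add_cancel hp.out.one_le).symm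
  have key : ∀ x x', lg x = lg x' → φ x = φ x' := by
    intro x x' e
    have a1 : lg (x * x' ^ (p - 1)) = 0 := by
      rw [hl, pow_LIN lg hl, e, add_comm, ← succ_nsmul, ← p1, hpV]
    have a2 := h0 _ a1
    rw [hφ, pow_LIN φ hφ] at a2
    have a3 : φ x' + (p - 1) • φ x' = 0 := by
      rw [add_comm, ← succ_nsmul, ← p1]
      ext i
      simp
    exact add_right_cancel (a2.trans a3.symm)
  let W : Submodule (ZMod p) (Fin k → ZMod p) :=
    { carrier := Set.range φ
      add_mem' := by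
        rintro _ _ ⟨x, rfl⟩ ⟨y, rfl⟩
        exact ⟨x * y, hφ x y⟩
      zero_mem' := ⟨u, hφu⟩
      smul_mem' := by
        rintro c _ ⟨x, rfl⟩
        refine ⟨x ^ c.val, ?_⟩
        rw [pow_LIN φ hφ, ← Nat.cast_smul_eq_nsmul (ZMod p), ZMod.natCast_zmod_val] }
  by_cases hW : W = ⊤
  · exfalso
    have : ∀ a : Fin k → ZMod p, ∃ y, φ y = a := fun a => (hW ▸ Submodule.mem_top : a ∈ W)
    choose y hy using this
    let _ : Module (ZMod p) V := AddCommGroup.zmodModule hpV
    have inj : Function.Injective fun z : (Fin k → ZMod p) × ZMod p × ZMod p =>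
        lg (y z.1 * (u ^ z.2.1.val * u' ^ z.2.2.val)) := by
      rintro ⟨a, b, c⟩ ⟨a', b', c'⟩ e
      have e1 := key _ _ e
      simp only [hφ, pow_LIN φ hφ, hφu, hφu', smul_zero, add_zero, hy] at e1
      subst e1
      simp only [hl, pow_LIN lg hl, add_right_inj, ← Nat.cast_smul_eq_nsmul (ZMod p),
        ZMod.natCast_zmod_val] at e
      have e2 : (b - b') • lg u + (c - c') • lg u' = 0 := by
        rw [sub_smul, sub_smul, sub_add_sub_comm, e, sub_self]
      obtain ⟨e3, e4⟩ := ind_LNK _ _ hu _ _ e2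
      rw [sub_eq_zero.1 e3, sub_eq_zero.1 e4]
    have c1 := Nat.card_le_card_of_injective _ inj
    rw [Nat.card_prod, Nat.card_prod, Nat.card_fun, Nat.card_zmod, Nat.card_eq_fintype_card,
      Fintype.card_fin] at c1
    have c2 : 0 < p ^ (k + 1) := pow_pos hp.out.pos (k + 1)
    have c3 := hp.out.one_lt
    have c4 : p ^ k * (p * p) = p ^ (k + 1) * p := by ring
    rw [c4] at c1
    nlinarith
  · obtain ⟨f, hf, hker⟩ := Submodule.exists_le_ker_of_lt_top W (lt_top_iff_ne_top.2 hW)
    have ef : ∀ a : Fin k → ZMod p, f a = ∑ i, f (Pi.single i 1) * a i := by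
      intro a
      conv_lhs => rw [← Finset.univ_sum_single a]
      rw [map_sum]
      refine sum_congr rfl fun i _ => ?_
      rw [mul_comm, ← smul_eq_mul, ← map_smul, ← Pi.single_smul, smul_eq_mul, mul_one]
    refine ⟨fun i => f (Pi.single i 1), fun hc => hf (LinearMap.ext fun a => ?_), fun x => ?_⟩
    · rw [ef]
      exact sum_eq_zero fun i _ => by rw [show f (Pi.single i 1) = 0 from congrFun hc i, zero_mul]
    · rw [← ef]
      exact hker (⟨x, rfl⟩ : φ x ∈ W)

end Pool.Agent.MP_3e91a1_nt.TR
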