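import Pool.Agent.MP_3e91a1_nt.TR.St

/-! No combination of the logarithmic derivatives of the units is a derivative. -/

set_option autoImplicit false

open Finset MvPolynomial

namespace Pool.Agent.MP_3e91a1_nt.TR

theorem lw_RES {F S : Type} [Field F] [CommRing S] [Algebra F S] (c c' : ℕ) (g : Fin 7 → S)
    (j : Fin 8) : aeval g (lw c c' (X : Fin 7 → MvPolynomial (Fin 7) F) j) = lw c c' g j := by
  fin_cases j <;> simp [lw, th, th1, iv, dsc]

theorem dsc_RES {F L : Type} [Field F] [CharZero F] [Field L] [Algebra F L] {τ : L}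
    (h : Transcendental F τ) (c : ℕ) : dsc (c * τ) ≠ 0 := fun h0 => by
  have h1 := congrArg (Polynomial.eval 0) ((transcendental_iff.1 h)
    (dsc ((c : Polynomial F) * Polynomial.X)) (by rw [← h0]; simp [dsc, map_ofNat]))
  norm_num [dsc] at h1

theorem key_RES (hINT : INT_st) (hKER : KER_st) {F S L : Type} [Field F] [CharZero F] [CommRing S]
    [IsDomain S] [Algebra F S] [Field L] [Algebra F L] {c c' : ℕ} {g : Fin 7 → S} (hc : 0 < c)
    (hc' : 0 < c') (hcc : c ≠ c') (ht : Transcendental F (g 0)) (hg : Dat c c' g) {k : Fin 8 → F}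
    {a b : MvPolynomial (Fin 7) F} (ha : aeval g a ≠ 0)
    (h : aeval g a ^ 2 * ∑ j, k j • lw c c' g j = aeval g (a * Th c c' F b - b * Th c c' F a))
    (δ : Derivation F L L) (res : L →ₗ[F] F) {τ : L} (hτ : Transcendental F τ) (hδ : δ τ = -τ)
    (hres : ∀ v, res (δ v) = 0) {x y z x' y' z' : L} (h1 : Tri (c * τ) x y z)
    (h2 : Tri (c' * τ) x' y' z') :
    k 0 * res (δ x / x) + k 1 * res (δ (x - 1) / (x - 1)) + k 2 * res (δ y / y) +
      k 3 * res (δ (y - 1) / (y - 1)) + k 4 * res (δ x' / x') + k 5 * res (δ (x' - 1) / (x' - 1)) +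
      k 6 * res (δ y' / y') + k 7 * res (δ (y' - 1) / (y' - 1)) = 0 := by
  set g' : Fin 7 → L := ![τ, x, y, z, x', y', z'] with hg'
  have d0 : g' 0 = τ := rfl
  have hD : Dat c c' g' := ⟨h1, h2⟩
  have hτ0 : τ ≠ 0 := fun h0 => hτ (h0 ▸ isAlgebraic_zero)
  have e1 := hKER F S L c c' g g' hc hc' hcc ht hτ hg hD
    (a ^ 2 * ∑ j, k j • lw c c' X j - (a * Th c c' F b - b * Th c c' F a))
    (by rw [map_sub, map_mul, map_pow, map_sum, ← h]; simp only [map_smul, lw_RES, sub_self])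
  have e2 : aeval g' a ≠ 0 := fun h0 => ha (hKER F L S c c' g' g hc hc' hcc hτ ht hD hg a h0)
  have e3 := dsc_RES hτ c
  have e4 := dsc_RES hτ c'
  have e5 : -(dsc (c * τ) * dsc (c' * τ)) / τ ≠ 0 :=
    div_ne_zero (neg_ne_zero.2 (mul_ne_zero e3 e4)) hτ0
  obtain ⟨-, i2, i3, i4⟩ := hINT F L δ c c' g' (-(dsc (c * τ) * dsc (c' * τ)) / τ) hD e3 e4
    (by rw [d0, hδ]; field_simp)
  generalize -(dsc (c * τ) * dsc (c' * τ)) / τ = γ at e5 i3 i4
  simp only [map_sub, map_mul, map_pow, map_sum, map_smul, lw_RES, ← i3, ← i4] at e1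
  have e6 : ∑ j, k j • (δ (un g' j) / un g' j) = δ (aeval g' b / aeval g' a) := by
    have f1 : ∑ j, k j • (γ * (δ (un g' j) * iv c c' g' j)) =
        γ * ∑ j, k j • (δ (un g' j) / un g' j) := by
      rw [mul_sum]
      refine sum_congr rfl fun j _ => ?_
      rw [mul_smul_comm, div_eq_mul_inv, eq_inv_of_mul_eq_one_right (i2 j)]
    rw [f1] at e1
    rw [Derivation.leibniz_div]
    simp only [smul_eq_mul]
    refine mul_left_cancel₀ (mul_ne_zero e5 (pow_ne_zero 2 e2)) ?_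
    field_simp
    linear_combination (exp := 1) γ⁻¹ * e1 - (aeval g' a ^ 2 * ∑ j, k j • (δ (un g' j) / un g' j) -
      (aeval g' a * δ (aeval g' b) - aeval g' b * δ (aeval g' a))) * (inv_mul_cancel₀ e5)
  have e7 := congrArg res e6
  rw [hres, map_sum, Fin.sum_univ_eight] at e7
  simp only [map_smul, smul_eq_mul] at e7
  exact e7

theorem RES_pf (hINT : INT_st) (hINF : INF_st) (hKER : KER_st) : RES_st := by
  intro F S _ _ _ _ _ c c' g hc hc' hcc ht hg k a b ha h
  obtain ⟨L, _, _, δ, res, τ, hτ, hδ, hres, hr⟩ := hINF F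
  obtain ⟨x, y, z, ⟨t1, t2, t3⟩, r1, r2, r3, r4, r5, r6⟩ := hr c hc
  obtain ⟨x', y', z', ⟨u1, u2, u3⟩, s1, s2, s3, s4, s5, s6⟩ := hr c' hc'
  have p : ∀ {T x y z : L}, Tri T x y z → Tri T y x z ∧ Tri T x z y := fun ⟨a1, a2, a3⟩ =>
    ⟨⟨by linear_combination a1, by linear_combination a2, by linear_combination a3⟩,
      ⟨by linear_combination a1, by linear_combination a2, by linear_combination a3⟩⟩
  have K := fun {x y z x' y' z' : L} =>
    key_RES (x := x) (y := y) (z := z) (x' := x') (y' := y') (z' := z') hINT hKER hc hc' hcc ht hg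
      ha h δ res hτ hδ hres
  have t : Tri (c * τ) x y z := ⟨t1, t2, t3⟩
  have u : Tri (c' * τ) x' y' z' := ⟨u1, u2, u3⟩
  have a1 := K t u
  have a3 := K (p t).2 u
  have a4 := K (p (p t).1).2 u
  have a5 := K (p (p t).2).1 u
  have a6 := K (p (p (p t).1).2).1 u
  have b3 := K t (p u).2
  have b4 := K t (p (p u).1).2
  have b5 := K t (p (p u).2).1
  have b6 := K t (p (p (p u).1).2).1
  simp only [r1, r2, r3, r4, r5, r6, s1, s2, s3, s4, s5, s6, mul_one, mul_zero, mul_neg,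
    add_zero, zero_add] at a1 a3 a4 a5 a6 b3 b4 b5 b6
  have c0 : k 0 = 0 := by linear_combination (1 / 3) * (a1 - a6 + a3 - a4)
  have c1 : k 1 = 0 := by linear_combination c0 - a3 + a4
  have c3 : k 3 = 0 := by linear_combination (1 / 3) * (a1 - a3 - a5 + a6)
  have c2 : k 2 = 0 := by linear_combination c3 + a5 - a6
  have c4 : k 4 = 0 := by linear_combination (1 / 3) * (a1 - b6 + b3 - b4)
  have c5 : k 5 = 0 := by linear_combination c4 - b3 + b4
  have c7 : k 7 = 0 := by linear_combination (1 / 3) * (a1 - b3 - b5 + b6)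
  have c6 : k 6 = 0 := by linear_combination c7 + b5 - b6
  funext j
  fin_cases j
  exacts [c0, c1, c2, c3, c4, c5, c6, c7]

end Pool.Agent.MP_3e91a1_nt.TR
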